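import Pool.Agent.Lib.MP_7c5c90_an.TR.H2

/-!
The abstract area estimate along three radii, and the passage to Friedrichs' inequality.
-/

set_option autoImplicit false

open MeasureTheory Set Complex Filter Topology Metric
open scoped Real ComplexConjugate

namespace Pool.Agent.Lib.MP_7c5c90_an.TR

open RP

theorem area_le {U : Set ℂ} {F Φ Φ' : ℂ → ℂ} (hF : DifferentiableOn ℂ F U)
    (hi : IntegrableOn (fun z => ‖F z‖ ^ 2) U) (hΦ : ∀ w ∈ ball (0 : ℂ) 1, HasDerivAt Φ (Φ' w) w)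
    (hΦ' : DifferentiableOn ℂ Φ' (ball 0 1)) (hmap : ∀ w ∈ ball (0 : ℂ) 1, Φ w ∈ U)
    (hinj : InjOn Φ (ball 0 1)) {r : ℝ} (hr : r ∈ Ioo (0 : ℝ) 1) :
    IntervalIntegrable (fun s : ℝ => s * ∫ t in (-π)..π, ‖F (Φ (s * e t)) * Φ' (s * e t)‖ ^ 2)
      volume 0 r ∧ ∫ s in (0 : ℝ)..r, s * ∫ t in (-π)..π, ‖F (Φ (s * e t)) * Φ' (s * e t)‖ ^ 2 ≤
        ∫ z in U, ‖F z‖ ^ 2 := by
  have hB : Box 0 r π ⊆ ball 0 1 := fun w hw => mem_ball_zero_iff.2 (hw.1.2.trans hr.2)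
  have hc : ContinuousOn (fun w => F (Φ w) * Φ' w) (ball 0 1) :=
    (hF.continuousOn.comp (fun w hw => (hΦ w hw).continuousAt.continuousWithinAt) hmap).mul
      hΦ'.continuousOn
  obtain ⟨b5, b6⟩ := polar_box le_rfl hr.1.le Real.pi_pos.le le_rfl
    (F := fun w => ‖F (Φ w) * Φ' w‖ ^ 2)
    ((hc.norm.pow 2).mono fun w hw => mem_ball_zero_iff.2 (hw.2.trans_lt hr.2))
  have b7 := integral_image_holo (measurableSet_Box 0 r π) (fun w hw => hΦ w (hB hw))
    (hinj.mono hB) fun z => ‖F z‖ ^ 2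
  refine ⟨b5, ?_⟩
  rw [← b6]
  refine le_trans (le_of_eq ?_) (setIntegral_mono_set hi
    (Eventually.of_forall fun _ => sq_nonneg _) (LE.le.eventuallyLE (s := Φ '' Box 0 r π) (by
      rintro _ ⟨w, hw, rfl⟩
      exact hmap w (hB hw))))
  rw [b7]
  simp only [norm_mul, mul_pow, mul_comm]

theorem core_abs {U : Set ℂ} {F G H1 H Φ Φ' : ℂ → ℂ} (hF : DifferentiableOn ℂ F U)
    (hG : DifferentiableOn ℂ G U) (iF : IntegrableOn (fun z => ‖F z‖ ^ 2) U)
    (iG : IntegrableOn (fun z => ‖G z‖ ^ 2) U) (h1 : ∀ z ∈ U, HasDerivAt H1 (F z * G z) z)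
    (h2 : ∀ z ∈ U, HasDerivAt H (H1 z) z) (hΦ : ∀ w ∈ ball (0 : ℂ) 1, HasDerivAt Φ (Φ' w) w)
    (hΦ' : DifferentiableOn ℂ Φ' (ball 0 1)) (hΦc : ContinuousOn Φ (closedBall 0 1))
    (hmap : ∀ w ∈ closedBall (0 : ℂ) 1, Φ w ∈ U) (hinj : InjOn Φ (ball 0 1)) (hF0 : F (Φ 0) = 0)
    (h10 : H1 (Φ 0) = 0) (h20 : H (Φ 0) = 0) {k : ℝ} (hk : 0 ≤ k) {a0 a1 a2 : ℂ}
    (hw : ∀ p ∈ [(a0, (1 : ℂ)), (a1, u), (a2, u ^ 2)], ∀ s : ℝ, 0 < s → s < 1 →
      3 * s * (‖p.1‖ * ‖Φ p.2 - Φ (p.2 * (s ^ 2 : ℝ))‖) ≤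
        k * (1 - s ^ 6) * ‖Φ' (p.2 * (s ^ 2 : ℝ))‖) :
    2 * π * ‖a0 * H (Φ 1) + a1 * H (Φ u) + a2 * H (Φ (u ^ 2))‖ ≤
      k * ((∫ z in U, ‖F z‖ ^ 2) + ∫ z in U, ‖G z‖ ^ 2) := by
  have hmap' : ∀ w ∈ ball (0 : ℂ) 1, Φ w ∈ U := fun w hw => hmap w (ball_subset_closedBall hw)
  set E : ℂ → ℝ → ℂ := fun v s => H (Φ (v * (s ^ 2 : ℝ))) +
    (Φ v - Φ (v * (s ^ 2 : ℝ))) * H1 (Φ (v * (s ^ 2 : ℝ))) with hE
  set D : ℂ → ℝ → ℂ := fun v s => (Φ v - Φ (v * (s ^ 2 : ℝ))) *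
    (F (Φ (v * (s ^ 2 : ℝ))) * G (Φ (v * (s ^ 2 : ℝ)))) * (Φ' (v * (s ^ 2 : ℝ)) * (v * (2 * s)))
    with hD
  have nv : ∀ v : ℂ, ‖v‖ = 1 → ∀ s : ℝ, ‖v * (s ^ 2 : ℝ)‖ = s ^ 2 := fun v hv s => by
    rw [norm_mul, hv, one_mul, Complex.norm_real, Real.norm_of_nonneg (sq_nonneg s)]
  have mb : ∀ v : ℂ, ‖v‖ = 1 → ∀ s : ℝ, 0 ≤ s → s < 1 → v * (s ^ 2 : ℝ) ∈ ball (0 : ℂ) 1 :=
    fun v hv s a b => by
      rw [mem_ball_zero_iff, nv v hv]
      exact pow_lt_one₀ a b two_ne_zero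
  have dE : ∀ v : ℂ, ‖v‖ = 1 → ∀ s : ℝ, 0 ≤ s → s < 1 → HasDerivAt (E v) (D v s) s :=
    fun v hv s a b => by
      have c1 : HasDerivAt (fun s : ℝ => v * (s ^ 2 : ℝ)) (v * (2 * s)) s := by
        have := ((hasDerivAt_pow 2 s).ofReal_comp).const_mul v
        exact this.congr_deriv (by push_cast; ring)
      have c2 := (hΦ _ (mb v hv s a b)).comp_of_eq s c1 rfl
      have c3 := (h1 _ (hmap' _ (mb v hv s a b))).comp_of_eq s c2 rfl
      have c4 := (h2 _ (hmap' _ (mb v hv s a b))).comp_of_eq s c2 rfl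
      refine (c4.add ((c2.const_sub (Φ v)).mul c3)).congr_deriv ?_
      simp only [hD, Function.comp_apply]
      ring
  have mc : ∀ v : ℂ, ‖v‖ = 1 → ∀ s ∈ Icc (0 : ℝ) 1, v * (s ^ 2 : ℝ) ∈ closedBall (0 : ℂ) 1 :=
    fun v hv s hs => by
      rw [mem_closedBall_zero_iff, nv v hv]
      exact pow_le_one₀ hs.1 hs.2
  have cΦ : ∀ v : ℂ, ‖v‖ = 1 → ContinuousOn (fun s : ℝ => Φ (v * (s ^ 2 : ℝ))) (Icc 0 1) :=
    fun v hv => hΦc.comp (by fun_prop) (mc v hv)
  have cc : ∀ {X : ℂ → ℂ}, ContinuousOn X U → ∀ v : ℂ, ‖v‖ = 1 →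
      ContinuousOn (fun s : ℝ => X (Φ (v * (s ^ 2 : ℝ)))) (Icc 0 1) :=
    fun hX v hv => hX.comp (cΦ v hv) fun s hs => hmap _ (mc v hv s hs)
  have cE : ∀ v : ℂ, ‖v‖ = 1 → ContinuousOn (E v) (Icc 0 1) := fun v hv =>
    (cc (fun z hz => (h2 z hz).continuousAt.continuousWithinAt) v hv).add
      ((continuousOn_const.sub (cΦ v hv)).mul
        (cc (fun z hz => (h1 z hz).continuousAt.continuousWithinAt) v hv))
  have cD : ∀ v : ℂ, ‖v‖ = 1 → ∀ r : ℝ, r < 1 → ContinuousOn (D v) (Icc 0 r) := fun v hv r hr =>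
    (((continuousOn_const.sub (cΦ v hv)).mul ((cc hF.continuousOn v hv).mul
      (cc hG.continuousOn v hv))).mono (Icc_subset_Icc le_rfl hr.le)).mul
      ((hΦ'.continuousOn.comp (by fun_prop) fun s hs => mb v hv s hs.1 (hs.2.trans_lt hr)).mul
        (by fun_prop))
  have bD : ∀ a v : ℂ, ‖v‖ = 1 → ∀ s : ℝ, 0 < s → s < 1 →
      3 * s * (‖a‖ * ‖Φ v - Φ (v * (s ^ 2 : ℝ))‖) ≤ k * (1 - s ^ 6) * ‖Φ' (v * (s ^ 2 : ℝ))‖ →
      3 * s * ‖a * D v s‖ ≤ k * (1 - s ^ 6) *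
        (‖F (Φ (v * (s ^ 2 : ℝ))) * Φ' (v * (s ^ 2 : ℝ))‖ ^ 2 +
          s ^ 2 * ‖G (Φ (v * (s ^ 2 : ℝ))) * Φ' (v * (s ^ 2 : ℝ))‖ ^ 2) := fun a v hv s a' b h => by
    have h6 : 0 ≤ k * (1 - s ^ 6) := mul_nonneg hk (sub_nonneg.2 (pow_le_one₀ a'.le b.le))
    simp only [hD, norm_mul, hv, Complex.norm_real, Real.norm_of_nonneg a'.le, Complex.norm_ofNat]
    generalize ‖Φ v - Φ (v * (s ^ 2 : ℝ))‖ = x at h
    have p1 := norm_nonneg (Φ' (v * (s ^ 2 : ℝ)))
    have p2 := norm_nonneg (F (Φ (v * (s ^ 2 : ℝ))))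
    have p3 := norm_nonneg (G (Φ (v * (s ^ 2 : ℝ))))
    generalize ‖Φ' (v * (s ^ 2 : ℝ))‖ = y at *
    generalize ‖F (Φ (v * (s ^ 2 : ℝ)))‖ = f at *
    generalize ‖G (Φ (v * (s ^ 2 : ℝ)))‖ = g at *
    have q1 := mul_le_mul_of_nonneg_right h (show 0 ≤ 2 * s * f * g * y by positivity)
    have q2 := mul_nonneg h6 (sq_nonneg (f * y - s * (g * y)))
    nlinarith
  have dF : ∀ {X : ℂ → ℂ}, DifferentiableOn ℂ X U →
      DifferentiableOn ℂ (fun w => X (Φ w) * Φ' w) (ball 0 1) := fun hX =>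
    (hX.comp (fun w hw => (hΦ w hw).differentiableAt.differentiableWithinAt) hmap').mul hΦ'
  have s3 : ∀ r ∈ Ioo (0 : ℝ) 1, 2 * π * ‖a0 * E 1 r + a1 * E u r + a2 * E (u ^ 2) r‖ ≤
      k * ((∫ z in U, ‖F z‖ ^ 2) + ∫ z in U, ‖G z‖ ^ 2) := fun r hr => by
    obtain ⟨f1, f2⟩ := area_le hF iF hΦ hΦ' hmap' hinj hr
    obtain ⟨g1, g2⟩ := area_le hG iG hΦ hΦ' hmap' hinj hr
    have b1 := intervalIntegral.integral_eq_sub_of_hasDerivAt (a := 0) (b := r)
      (f := fun s => a0 * E 1 s + a1 * E u s + a2 * E (u ^ 2) s)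
      (f' := fun s => a0 * D 1 s + a1 * D u s + a2 * D (u ^ 2) s) (fun s hs => by
        rw [uIcc_of_le hr.1.le] at hs
        have b := hs.2.trans_lt hr.2
        exact (((dE 1 norm_one s hs.1 b).const_mul a0).add ((dE u norm_u s hs.1 b).const_mul a1)).add
          ((dE _ norm_u2 s hs.1 b).const_mul a2))
      (ContinuousOn.intervalIntegrable_of_Icc hr.1.le
        (((continuousOn_const.mul (cD 1 norm_one r hr.2)).add
          (continuousOn_const.mul (cD u norm_u r hr.2))).add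
            (continuousOn_const.mul (cD _ norm_u2 r hr.2))))
    have b0 : ∀ v, E v 0 = 0 := fun v => by simp [hE, h10, h20]
    simp only [b0, mul_zero, add_zero, sub_zero] at b1
    have b2 := intervalIntegral.norm_integral_le_of_norm_le (μ := volume) (a := 0) (b := r)
      (f := fun s => a0 * D 1 s + a1 * D u s + a2 * D (u ^ 2) s) hr.1.le
      (Eventually.of_forall fun s hs => ?_) ((f1.add g1).const_mul (k / (2 * π)))
    · rw [b1, intervalIntegral.integral_const_mul, intervalIntegral.integral_add f1 g1,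
        div_mul_eq_mul_div, le_div_iff₀' Real.two_pi_pos] at b2
      exact b2.trans (mul_le_mul_of_nonneg_left (add_le_add f2 g2) hk)
    have a := hs.1
    have b := hs.2.trans_lt hr.2
    have t0 := bD a0 1 norm_one s a b (hw (a0, 1) (by simp) s a b)
    have t1 := bD a1 u norm_u s a b (hw (a1, u) (by simp) s a b)
    have t2 := bD a2 _ norm_u2 s a b (hw (a2, u ^ 2) (by simp) s a b)
    have t3 := mul_le_mul_of_nonneg_left (three_zero (dF hF) (by simp [hF0]) a b) hk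
    have t4 := mul_le_mul_of_nonneg_left (three (dF hG) a b) (mul_nonneg hk (sq_nonneg s))
    have t5 := mul_le_mul_of_nonneg_left
      (norm_add₃_le (a := a0 * D 1 s) (b := a1 * D u s) (c := a2 * D (u ^ 2) s))
      (show 0 ≤ 3 * s by positivity)
    have t6 := mul_le_mul_of_nonneg_left (t5.trans ((le_of_eq (by ring)).trans
      (add_le_add (add_le_add t0 t1) t2))) Real.two_pi_pos.le
    rw [div_mul_eq_mul_div, le_div_iff₀' Real.two_pi_pos]
    refine le_of_mul_le_mul_left ?_ (show 0 < 3 * s by positivity)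
    linarith
  have s4 : ContinuousWithinAt (fun r => 2 * π * ‖a0 * E 1 r + a1 * E u r + a2 * E (u ^ 2) r‖)
      (Ioo 0 1) 1 :=
    ((continuousOn_const.mul ((((continuousOn_const.mul (cE 1 norm_one)).add
      (continuousOn_const.mul (cE u norm_u))).add (continuousOn_const.mul (cE _ norm_u2))).norm))
        1 (right_mem_Icc.2 zero_le_one)).mono Ioo_subset_Icc_self
  have := right_nhdsWithin_Ioo_neBot (zero_lt_one (α := ℝ))
  simpa [hE] using le_of_tendsto s4 (eventually_nhdsWithin_of_forall s3)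

theorem upper_of {Q : Set ℂ} (hQm : MeasurableSet Q) (hV : volume Q ≠ ⊤) {ω s : ℝ} (hs : 0 ≤ s)
    (hω : s < ω) {z0 : ℂ} (key : ∀ F G : ℂ → ℂ, DifferentiableOn ℂ F Q → DifferentiableOn ℂ G Q →
      IntegrableOn (fun z => ‖F z‖ ^ 2) Q → IntegrableOn (fun z => ‖G z‖ ^ 2) Q → F z0 = 0 →
      2 * ω * ‖∫ z in Q, F z * G z‖ ≤ s * ((∫ z in Q, ‖F z‖ ^ 2) + ∫ z in Q, ‖G z‖ ^ 2))
    (w : ℂ → ℂ) (hw : DifferentiableOn ℂ w Q) (hf : IntegrableOn (fun z => (w z).re ^ 2) Q)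
    (hg : IntegrableOn (fun z => (w z).im ^ 2) Q) (hm : ∫ z in Q, (w z).re = 0) :
    ∫ z in Q, (w z).re ^ 2 ≤ (ω + s) / (ω - s) * ∫ z in Q, (w z).im ^ 2 := by
  have : IsFiniteMeasure (volume.restrict Q) := isFiniteMeasure_restrict.2 hV
  set a : ℝ := (w z0).re with ha
  set g0 : ℝ := (w z0).im with hg0
  have hwm : AEStronglyMeasurable w (volume.restrict Q) := hw.continuousOn.aestronglyMeasurable hQm
  have hf1 : IntegrableOn (fun z => (w z).re) Q := by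
    refine Integrable.mono' (hf.add (integrable_const 1))
      (continuous_re.comp_aestronglyMeasurable hwm) (Eventually.of_forall fun z => ?_)
    rw [Real.norm_eq_abs, Pi.add_apply, ← sq_abs]
    nlinarith [abs_nonneg (w z).re]
  have hfa : IntegrableOn (fun z => ((w z).re - a) ^ 2) Q := by
    have := (hf.sub (hf1.const_mul (2 * a))).add (integrable_const (a ^ 2))
    refine this.congr (Eventually.of_forall fun z => ?_)
    simp only [Pi.add_apply, Pi.sub_apply]; ring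
  have hle : ∫ z in Q, (w z).re ^ 2 ≤ ∫ z in Q, ((w z).re - a) ^ 2 := by
    have e : ∫ z in Q, ((w z).re - a) ^ 2 =
        ∫ z in Q, ((w z).re ^ 2 - 2 * a * (w z).re + a ^ 2) := by
      congr 1; ext z; ring
    have i1 : IntegrableOn (fun z => (w z).re ^ 2 - 2 * a * (w z).re) Q :=
      hf.sub (hf1.const_mul (2 * a))
    rw [e, integral_add i1 (integrable_const _),
      integral_sub hf (hf1.const_mul (2 * a)), integral_const_mul, hm]
    have : 0 ≤ ∫ _ in Q, a ^ 2 := integral_nonneg fun _ => sq_nonneg a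
    linarith
  have j1 : IntegrableOn (fun z => ((w z).re - a) ^ 2 + (w z).im ^ 2) Q := hfa.add hg
  have j2 : IntegrableOn (fun z => ((w z).re - a) ^ 2 - (w z).im ^ 2) Q := hfa.sub hg
  have hbi : IntegrableOn (fun z => ((w z).re - a) ^ 2 + (w z).im ^ 2 + g0 ^ 2) Q :=
    j1.add (integrable_const _)
  have n1 : ∀ z, ‖w z - w z0‖ ^ 2 = ((w z).re - a) ^ 2 + ((w z).im - g0) ^ 2 := fun z => by
    rw [← Complex.normSq_eq_norm_sq, Complex.normSq_apply]
    simp [ha, hg0, sq]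
  have n2 : ∀ z, ‖w z - conj (w z0)‖ ^ 2 = ((w z).re - a) ^ 2 + ((w z).im + g0) ^ 2 := fun z => by
    rw [← Complex.normSq_eq_norm_sq, Complex.normSq_apply]
    simp [ha, hg0, sq]
  have d1 := hw.sub_const (w z0)
  have d2 := hw.sub_const (conj (w z0))
  have i1 : IntegrableOn (fun z => ‖w z - w z0‖ ^ 2) Q :=
    Integrable.mono' (hbi.const_mul 2) ((d1.continuousOn.norm.pow 2).aestronglyMeasurable hQm)
      (Eventually.of_forall fun z => by
        rw [Real.norm_of_nonneg (sq_nonneg _), n1]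
        nlinarith [sq_nonneg ((w z).im + g0), sq_nonneg ((w z).re - a)])
  have i2 : IntegrableOn (fun z => ‖w z - conj (w z0)‖ ^ 2) Q :=
    Integrable.mono' (hbi.const_mul 2) ((d2.continuousOn.norm.pow 2).aestronglyMeasurable hQm)
      (Eventually.of_forall fun z => by
        rw [Real.norm_of_nonneg (sq_nonneg _), n2]
        nlinarith [sq_nonneg ((w z).im - g0), sq_nonneg ((w z).re - a)])
  have hi : IntegrableOn (fun z => (w z - w z0) * (w z - conj (w z0))) Q :=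
    Integrable.mono' (i1.add i2) ((d1.mul d2).continuousOn.aestronglyMeasurable hQm)
      (Eventually.of_forall fun z => by
        rw [norm_mul, Pi.add_apply]
        nlinarith [norm_nonneg (w z - w z0), norm_nonneg (w z - conj (w z0)),
          sq_nonneg (‖w z - w z0‖ - ‖w z - conj (w z0)‖)])
  have key := key _ _ d1 d2 i1 i2 (sub_self _)
  have k1 : (∫ z in Q, ‖w z - w z0‖ ^ 2) + ∫ z in Q, ‖w z - conj (w z0)‖ ^ 2 =
      2 * ∫ z in Q, (((w z).re - a) ^ 2 + (w z).im ^ 2 + g0 ^ 2) := by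
    rw [← integral_add i1 i2, ← integral_const_mul]
    congr 1
    ext z
    rw [n1, n2]
    ring
  have k2 : ∫ z in Q, (((w z).re - a) ^ 2 - (w z).im ^ 2 + g0 ^ 2) ≤
      ‖∫ z in Q, (w z - w z0) * (w z - conj (w z0))‖ := by
    refine le_trans (le_of_eq ?_) (Complex.re_le_norm _)
    rw [← reCLM_apply, ← reCLM.integral_comp_comm hi]
    congr 1
    ext z
    simp [ha, hg0]
    ring
  rw [integral_add j1 (integrable_const _), integral_add hfa hg] at k1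
  rw [integral_add j2 (integrable_const _), integral_sub hfa hg] at k2
  have k3 : 0 ≤ ∫ _ in Q, g0 ^ 2 := integral_nonneg fun _ => sq_nonneg g0
  have hpi := sub_pos.2 hω
  refine le_trans hle ?_
  rw [div_mul_eq_mul_div, le_div_iff₀ hpi]
  rw [k1] at key
  linarith [mul_le_mul_of_nonneg_left k2 (hs.trans hω.le), mul_nonneg hpi.le k3]

theorem lower_of {Q : Set ℂ} (hV : volume Q ≠ ⊤) (hV0 : volume Q ≠ 0) {ω s B C D : ℝ} (hs : 0 < s)
    (hω : s < ω) (ht : ∀ L : ℝ, 0 ≤ L → ∃ w : ℂ → ℂ, DifferentiableOn ℂ w Q ∧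
      IntegrableOn (fun z => (w z).re) Q ∧ IntegrableOn (fun z => (w z).re ^ 2) Q ∧
      IntegrableOn (fun z => (w z).im ^ 2) Q ∧
      ∫ z in Q, ((w z).re ^ 2 + (w z).im ^ 2) ≤ ω * (B + L) ∧
      s * L - C ≤ ∫ z in Q, ((w z).re ^ 2 - (w z).im ^ 2) ∧ |∫ z in Q, (w z).re| ≤ D)
    (Γ : ℝ) (hΓ : ∀ w : ℂ → ℂ, DifferentiableOn ℂ w Q → IntegrableOn (fun z => (w z).re ^ 2) Q →
      IntegrableOn (fun z => (w z).im ^ 2) Q → ∫ z in Q, (w z).re = 0 →
      ∫ z in Q, (w z).re ^ 2 ≤ Γ * ∫ z in Q, (w z).im ^ 2) : (ω + s) / (ω - s) ≤ Γ := by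
  have hpi := sub_pos.2 hω
  have : IsFiniteMeasure (volume.restrict Q) := isFiniteMeasure_restrict.2 hV
  have hV' : 0 < volume.real Q := ENNReal.toReal_pos hV0 hV
  have hconst : ∀ c : ℝ, ∫ _ in Q, c = volume.real Q * c := fun c => by
    rw [setIntegral_const, smul_eq_mul]
  generalize volume.real Q = V at *
  set G : ℝ := max Γ 1 with hG
  have hG1 : 1 ≤ G := le_max_right _ _
  have main : ∀ L : ℝ, 0 ≤ L → L * ((ω + s) - G * (ω - s)) ≤
      2 * (D ^ 2 / V) + (G - 1) * (ω * B) + (1 + G) * C := by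
    intro L hL
    obtain ⟨w, hw, i0, i1, i2, hA, hB, hM⟩ := ht L hL
    rw [integral_add i1 i2] at hA
    rw [integral_sub i1 i2] at hB
    set m : ℝ := (∫ z in Q, (w z).re) / V with hm
    have hI : ∫ z in Q, (w z).re = V * m := by rw [hm]; field_simp
    have i3 : IntegrableOn (fun z => (w z).re ^ 2 - 2 * m * (w z).re) Q := i1.sub (i0.const_mul _)
    have e1 : ∀ z, (w z - m).re ^ 2 = (w z).re ^ 2 - 2 * m * (w z).re + m ^ 2 := by
      intro z; simp; ring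
    have h := hΓ (fun z => w z - m) (hw.sub_const _)
      (by simp only [e1]; exact i3.add (integrable_const _)) (by simpa using i2)
      (by
        simp only [sub_re, ofReal_re]
        rw [integral_sub i0 (integrable_const _), hconst, hI, sub_self])
    simp only [e1, sub_im, ofReal_im, sub_zero] at h
    rw [integral_add i3 (integrable_const _), integral_sub i1 (i0.const_mul _),
      integral_const_mul, hconst] at h
    have hg0 : 0 ≤ ∫ z in Q, (w z).im ^ 2 := integral_nonneg fun _ => sq_nonneg _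
    have h2 := mul_le_mul_of_nonneg_right (le_max_left Γ 1) hg0
    rw [hI] at h hM
    have hm2 : V * m ^ 2 ≤ D ^ 2 / V := by
      rw [le_div_iff₀ hV']
      have := pow_le_pow_left₀ (abs_nonneg _) hM 2
      rw [sq_abs] at this
      linarith
    generalize ∫ z in Q, (w z).re ^ 2 = X at *
    generalize ∫ z in Q, (w z).im ^ 2 = Y at *
    have h4 := mul_le_mul_of_nonneg_right hA (sub_nonneg.2 hG1)
    have h5 := mul_le_mul_of_nonneg_right hB (show 0 ≤ 1 + G by linarith)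
    linarith
  have hk : (ω + s) - G * (ω - s) ≤ 0 := by
    by_contra hk
    push Not at hk
    have h := main (|2 * (D ^ 2 / V) + (G - 1) * (ω * B) + (1 + G) * C| /
      ((ω + s) - G * (ω - s)) + 1) (by positivity)
    rw [add_mul, div_mul_cancel₀ _ hk.ne'] at h
    linarith [le_abs_self (2 * (D ^ 2 / V) + (G - 1) * (ω * B) + (1 + G) * C)]
  rw [div_le_iff₀ hpi]
  rcases le_total Γ 1 with h | h
  · rw [hG, max_eq_right h] at hk
    linarith
  · rw [hG, max_eq_left h] at hk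
    linarith

end Pool.Agent.Lib.MP_7c5c90_an.TR
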