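import Pool.Agent.Lib.MP_7c5c90_an.TR.Inj

/-!
The area integral of a holomorphic function over a triangle.
-/

set_option autoImplicit false

open MeasureTheory Set Complex Filter Topology Metric
open scoped Real ComplexConjugate

namespace Pool.Agent.Lib.MP_7c5c90_an.TR

open RP

variable {c d h ρ : ℝ} {p : ℂ}

/-- The open triangle with base from `p` to `p + ρ` and base angles of cotangents `c`, `d`. -/
def Tr (c d : ℝ) (p : ℂ) (ρ : ℝ) : Set ℂ :=
  {z | 0 < (z - p).im ∧ c * (z - p).im < (z - p).re ∧ d * (z - p).im < ρ - (z - p).re}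

/-- The closed triangle. -/
def cTr (c d : ℝ) (p : ℂ) (ρ : ℝ) : Set ℂ :=
  {z | 0 ≤ (z - p).im ∧ c * (z - p).im ≤ (z - p).re ∧ d * (z - p).im ≤ ρ - (z - p).re}

theorem Tr_subset : Tr c d p ρ ⊆ cTr c d p ρ := fun _ hz => ⟨hz.1.le, hz.2.1.le, hz.2.2.le⟩

theorem isOpen_Tr : IsOpen (Tr c d p ρ) :=
  (isOpen_lt (f := fun _ => 0) (g := fun z : ℂ => (z - p).im) (by fun_prop) (by fun_prop)).inter
    ((isOpen_lt (f := fun z : ℂ => c * (z - p).im) (g := fun z : ℂ => (z - p).re) (by fun_prop)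
      (by fun_prop)).inter (isOpen_lt (f := fun z : ℂ => d * (z - p).im)
        (g := fun z : ℂ => ρ - (z - p).re) (by fun_prop) (by fun_prop)))

theorem convex_Tr : Convex ℝ (Tr c d 0 ρ) := by
  intro x hx y hy s t hs ht hst
  simp only [Tr, mem_ofPred_eq, sub_zero, add_im, add_re, smul_im, smul_re, smul_eq_mul] at *
  have key : ∀ X Y : ℝ, 0 < X → 0 < Y → 0 < s * X + t * Y := fun X Y hX hY => by
    rcases hs.eq_or_lt with h | h
    · rw [← h] at hst ⊢
      rw [show t = 1 by linarith]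
      linarith
    · exact add_pos_of_pos_of_nonneg (mul_pos h hX) (mul_nonneg ht hY.le)
  refine ⟨key _ _ hx.1 hy.1, ?_, ?_⟩
  · linarith [key _ _ (sub_pos.2 hx.2.1) (sub_pos.2 hy.2.1)]
  · have := key _ _ (sub_pos.2 hx.2.2) (sub_pos.2 hy.2.2)
    rw [show ρ = (s + t) * ρ by rw [hst, one_mul]]
    linarith

theorem isCompact_cTr (hcd : 0 < c + d) : IsCompact (cTr c d p ρ) := by
  refine Metric.isCompact_of_isClosed_isBounded
    ((isClosed_le (f := fun _ => 0) (g := fun z : ℂ => (z - p).im) (by fun_prop) (by fun_prop)).inter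
      ((isClosed_le (f := fun z : ℂ => c * (z - p).im) (g := fun z : ℂ => (z - p).re) (by fun_prop)
        (by fun_prop)).inter (isClosed_le (f := fun z : ℂ => d * (z - p).im)
          (g := fun z : ℂ => ρ - (z - p).re) (by fun_prop) (by fun_prop))))
    ((isBounded_closedBall (x := p) (r := |ρ| + (|c| + |d| + 1) * (ρ / (c + d)))).subset
      fun z hz => ?_)
  obtain ⟨h1, h2, h3⟩ := hz
  rw [mem_closedBall_iff_norm]
  generalize z - p = w at *
  have h4 : w.im ≤ ρ / (c + d) := by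
    rw [le_div_iff₀ hcd]
    linarith
  have h5 := norm_le_abs_re_add_abs_im w
  have h6 : |w.re| ≤ |ρ| + (|c| + |d|) * w.im := by
    have := mul_le_mul_of_nonneg_right (neg_abs_le c) h1
    have := mul_le_mul_of_nonneg_right (neg_abs_le d) h1
    have := mul_nonneg (abs_nonneg c) h1
    have := mul_nonneg (abs_nonneg d) h1
    rw [abs_le]
    constructor <;> linarith [le_abs_self ρ, abs_nonneg ρ]
  rw [abs_of_nonneg h1] at h5
  linarith [mul_le_mul_of_nonneg_left h4 (show 0 ≤ |c| + |d| + 1 by positivity)]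

theorem integrableOn_Tr {E : Type} [NormedAddCommGroup E] (hcd : 0 < c + d) {f : ℂ → E}
    (hf : ContinuousOn f (cTr c d p ρ)) : IntegrableOn f (Tr c d p ρ) :=
  (hf.integrableOn_compact (isCompact_cTr hcd)).mono_set Tr_subset

theorem fubini (hcd : 0 < c + d) (hh : 0 < h) (hρ : ρ = h * (c + d)) {f : ℂ → ℂ}
    (hf : IntegrableOn f (Tr c d p ρ)) :
    ∫ z in Tr c d p ρ, f z = ∫ y in (0 : ℝ)..h, ∫ x in (c * y)..(ρ - d * y), f (p + y * I + x) := by
  have hmp := (measurePreserving_add_left volume p).comp volume_preserving_equiv_real_prod.symm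
  have hme := (MeasurableEquiv.addLeft p).measurableEmbedding.comp
    (measurableEquivRealProd.symm).measurableEmbedding
  change MeasurableEmbedding ((fun x => p + x) ∘ measurableEquivRealProd.symm) at hme
  generalize hg : (fun x => p + x) ∘ measurableEquivRealProd.symm = g at hmp hme
  have hg' : ∀ x y : ℝ, g (x, y) = p + y * I + x := fun x y => by
    rw [← hg, Function.comp_apply, measurableEquivRealProd_symm_apply, mk_eq_add_mul_I]
    ring
  have hm : MeasurableSet (g ⁻¹' Tr c d p ρ) := hme.measurable isOpen_Tr.measurableSet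
  have hf' := (integrable_indicator_iff hm).2 ((hmp.integrableOn_comp_preimage hme).2 hf)
  rw [← hmp.setIntegral_preimage_emb hme, ← integral_indicator hm]
  rw [Measure.volume_eq_prod] at hf' ⊢
  rw [show (fun q => f (g q)) = f ∘ g from rfl, integral_prod_symm _ hf',
    intervalIntegral.integral_of_le hh.le, integral_Ioc_eq_integral_Ioo,
    ← integral_indicator measurableSet_Ioo]
  refine integral_congr_ae (Eventually.of_forall fun y => ?_)
  have hmem : ∀ x : ℝ, (x, y) ∈ g ⁻¹' Tr c d p ρ ↔ 0 < y ∧ c * y < x ∧ d * y < ρ - x :=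
    fun x => by simp [Tr, hg', add_assoc]
  by_cases hy : y ∈ Ioo 0 h
  · simp only [indicator_of_mem hy]
    rw [intervalIntegral.integral_of_le (by nlinarith [hy.2]), integral_Ioc_eq_integral_Ioo,
      ← integral_indicator measurableSet_Ioo]
    refine integral_congr_ae (Eventually.of_forall fun x => ?_)
    by_cases hx : x ∈ Ioo (c * y) (ρ - d * y)
    · simp only [indicator_of_mem hx, indicator_of_mem ((hmem x).2 ⟨hy.1, hx.1, by linarith [hx.2]⟩),
        Function.comp_apply, hg']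
    · simp only [indicator_of_notMem hx, indicator_of_notMem
        (fun h => hx ⟨((hmem x).1 h).2.1, by linarith [((hmem x).1 h).2.2]⟩)]
  · have : ∀ x : ℝ, (x, y) ∉ g ⁻¹' Tr c d p ρ := fun x h' => by
      obtain ⟨k1, k2, k3⟩ := (hmem x).1 h'
      exact hy ⟨k1, lt_of_mul_lt_mul_right (a := c + d) (by linarith) hcd.le⟩
    simp only [indicator_of_notMem hy, indicator_of_notMem (this _), integral_zero]

/-- The area integral through a second primitive at the vertices. -/
theorem davis (hcd : 0 < c + d) (hh : 0 < h) (hρ : ρ = h * (c + d)) {f H1 H : ℂ → ℂ}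
    (hf : ContinuousOn f (cTr c d p ρ)) (h1 : ∀ z ∈ cTr c d p ρ, HasDerivAt H1 (f z) z)
    (h2 : ∀ z ∈ cTr c d p ρ, HasDerivAt H (H1 z) z) {a0 a1 : ℂ} (k0 : a0 * (c + I) = 1)
    (k1 : a1 * (d - I) = 1) : ∫ z in Tr c d p ρ, f z =
      a0 * H p + a1 * H (p + ρ) + -(a0 + a1) * H (p + h * (c + I)) := by
  have hle : ∀ y ∈ uIcc 0 h, 0 ≤ y ∧ c * y ≤ ρ - d * y := fun y hy => by
    rw [uIcc_of_le hh.le] at hy
    exact ⟨hy.1, by nlinarith [hy.2]⟩
  have hmem : ∀ y ∈ uIcc 0 h, ∀ x ∈ uIcc (c * y) (ρ - d * y), p + y * I + x * 1 ∈ cTr c d p ρ :=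
    fun y hy x hx => by
      rw [uIcc_of_le (hle y hy).2] at hx
      have : d * y ≤ ρ - x := by linarith [hx.2]
      simp [cTr, add_assoc, (hle y hy).1, hx.1, this]
  have e1 : ∀ y : ℝ, p + y * I + (c * y : ℝ) * 1 = p + y * (c + I) := fun y => by
    push_cast; ring
  have e2 : ∀ y : ℝ, p + y * I + (ρ - d * y : ℝ) * 1 = p + ρ + y * (I - d) := fun y => by
    push_cast; ring
  have m1 : ∀ y ∈ uIcc 0 h, p + y * (c + I) ∈ cTr c d p ρ := fun y hy =>
    e1 y ▸ hmem y hy _ left_mem_uIcc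
  have m2 : ∀ y ∈ uIcc 0 h, p + ρ + y * (I - d) ∈ cTr c d p ρ := fun y hy =>
    e2 y ▸ hmem y hy _ right_mem_uIcc
  have c1 : ContinuousOn H1 (cTr c d p ρ) := fun z hz => (h1 z hz).continuousAt.continuousWithinAt
  have inner : ∀ y ∈ uIcc 0 h, ∫ x in (c * y)..(ρ - d * y), f (p + y * I + x) =
      H1 (p + ρ + y * (I - d)) - H1 (p + y * (c + I)) := fun y hy => by
    have := intervalIntegral.integral_eq_sub_of_hasDerivAt
      (f := fun x : ℝ => H1 (p + y * I + x * 1)) (f' := fun x : ℝ => f (p + y * I + x * 1))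
      (fun x hx => (deriv_line (h1 _ (hmem y hy x hx))).congr_deriv (mul_one _))
      (hf.comp (by fun_prop) (hmem y hy)).intervalIntegrable
    rw [e1, e2] at this
    simpa only [mul_one] using this
  rw [fubini hcd hh hρ (integrableOn_Tr hcd hf), intervalIntegral.integral_congr inner,
    intervalIntegral.integral_eq_sub_of_hasDerivAt
      (f := fun y : ℝ => -a1 * H (p + ρ + y * (I - d)) - a0 * H (p + y * (c + I)))
      (f' := fun y : ℝ => H1 (p + ρ + y * (I - d)) - H1 (p + y * (c + I)))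
      (fun y hy => (((deriv_line (h2 _ (m2 y hy))).const_mul (-a1)).sub
        ((deriv_line (h2 _ (m1 y hy))).const_mul a0)).congr_deriv (by
          linear_combination H1 (p + ρ + y * (I - d)) * k1 - H1 (p + y * (c + I)) * k0))
      ((c1.comp (by fun_prop) m2).sub (c1.comp (by fun_prop) m1)).intervalIntegrable,
    show p + ρ + h * (I - d) = p + h * (c + I) by rw [hρ]; push_cast; ring]
  simp only [ofReal_zero, zero_mul, add_zero]
  ring

theorem shrink {z0 : ℂ} (hz : z0 ∈ Tr c d 0 1) {ρ' : ℝ} (hρ : ρ < ρ') :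
    cTr c d ((1 - ρ : ℝ) * z0) ρ ⊆ Tr c d ((1 - ρ' : ℝ) * z0) ρ' := fun z h => by
  simp only [Tr, cTr, mem_ofPred_eq, sub_zero, sub_im, sub_re, re_ofReal_mul, im_ofReal_mul] at *
  have k := sub_pos.2 hρ
  refine ⟨?_, ?_, ?_⟩
  · linarith [h.1, mul_pos k hz.1]
  · linarith [h.2.1, mul_lt_mul_of_pos_left hz.2.1 k]
  · linarith [h.2.2, mul_lt_mul_of_pos_left hz.2.2 k]

theorem exhaust {z0 : ℂ} (hz : z0 ∈ Tr c d 0 1) {f : ℂ → ℂ} (hi : IntegrableOn f (Tr c d 0 1))
    {M : ℝ} (hM : ∀ ρ : ℝ, 0 < ρ → ρ < 1 → ‖∫ z in Tr c d ((1 - ρ : ℝ) * z0) ρ, f z‖ ≤ M) :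
    ‖∫ z in Tr c d 0 1, f z‖ ≤ M := by
  set ρ : ℕ → ℝ := fun m => 1 - 1 / ((m : ℝ) + 2) with hρ
  have hρ0 : ∀ m, 0 < ρ m := fun m => by
    have : 1 / ((m : ℝ) + 2) < 1 := by
      rw [div_lt_one (by positivity)]
      linarith [Nat.cast_nonneg (α := ℝ) m]
    exact sub_pos.2 this
  have hρ1 : ∀ m, ρ m < 1 := fun m => sub_lt_self _ (by positivity)
  have hρm : StrictMono ρ := fun a b hab => by
    have : (a : ℝ) < b := by exact_mod_cast hab
    exact sub_lt_sub_left (one_div_lt_one_div_of_lt (by positivity) (by linarith)) _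
  have hρt : Tendsto ρ atTop (𝓝 1) := by
    have : Tendsto (fun m : ℕ => 1 / ((m : ℝ) + 2)) atTop (𝓝 0) :=
      tendsto_const_nhds.div_atTop (tendsto_atTop_add_const_right _ _ tendsto_natCast_atTop_atTop)
    have h2 := this.const_sub 1
    rwa [sub_zero] at h2
  have hU : ⋃ m, Tr c d ((1 - ρ m : ℝ) * z0) (ρ m) = Tr c d 0 1 := by
    refine subset_antisymm (iUnion_subset fun m => ?_) fun z hz => ?_
    · simpa using Tr_subset.trans (shrink hz (hρ1 m))
    have ho : IsOpen {r : ℝ | z ∈ Tr c d ((1 - r : ℝ) * z0) r} :=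
      (isOpen_lt (f := fun _ => 0) (g := fun r : ℝ => (z - (1 - r : ℝ) * z0).im) (by fun_prop)
        (by fun_prop)).inter ((isOpen_lt (f := fun r : ℝ => c * (z - (1 - r : ℝ) * z0).im)
          (g := fun r : ℝ => (z - (1 - r : ℝ) * z0).re) (by fun_prop) (by fun_prop)).inter
            (isOpen_lt (f := fun r : ℝ => d * (z - (1 - r : ℝ) * z0).im)
              (g := fun r : ℝ => r - (z - (1 - r : ℝ) * z0).re) (by fun_prop) (by fun_prop)))
    obtain ⟨m, hm⟩ := (hρt.eventually (ho.mem_nhds (by simpa using hz))).exists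
    exact mem_iUnion.2 ⟨m, hm⟩
  have ht := tendsto_setIntegral_of_monotone (μ := volume) (f := f)
    (s := fun m => Tr c d ((1 - ρ m : ℝ) * z0) (ρ m)) (fun m => isOpen_Tr.measurableSet)
    (monotone_nat_of_le_succ fun m => Tr_subset.trans (shrink hz (hρm (Nat.lt_succ_self m))))
    (by rw [hU]; exact hi)
  rw [hU] at ht
  exact le_of_tendsto' ht.norm fun m => hM _ (hρ0 m) (hρ1 m)

end Pool.Agent.Lib.MP_7c5c90_an.TR
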