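import Pool.Agent.Lib.MP_7c5c90_an.RP.Core

/-!
Three symmetric points inside a circle, and the abstract area estimate.
-/

set_option autoImplicit false

open MeasureTheory Set Complex Filter Topology Metric
open scoped Real ComplexConjugate

namespace Pool.Agent.Lib.MP_7c5c90_an.TR

open RP

/-- The cube root of unity. -/
noncomputable def u : ℂ := e (2 * π / 3)

theorem norm_u : ‖u‖ = 1 := norm_e _

theorem norm_u2 : ‖u ^ 2‖ = 1 := by rw [norm_pow, norm_u, one_pow]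

theorem u_prim : IsPrimitiveRoot u 3 := by
  have := zt_prim (n := 3) le_rfl
  rwa [zt, th, show 2 * (π / (3 : ℕ)) = 2 * π / 3 by push_cast; ring] at this

theorem u_cube : u ^ 3 = 1 := u_prim.pow_eq_one

theorem u_sum : 1 + u + u ^ 2 = 0 := by
  simpa [Finset.sum_range_succ] using u_prim.geom_sum_eq_zero (by norm_num)

theorem conj_u : conj u = u ^ 2 := by
  have h : u * conj u = 1 := by rw [Complex.mul_conj, Complex.normSq_eq_norm_sq, norm_u]; simp
  linear_combination u ^ 2 * h - conj u * u_cube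

theorem cont_circle {G : ℂ → ℂ} (hG : ContinuousOn G (ball 0 1)) {s : ℝ} (h0 : 0 ≤ s) (h1 : s < 1) :
    Continuous fun t => G (s * e t) :=
  hG.comp_continuous (continuous_const.mul continuous_e) fun t => by
    rw [mem_ball_zero_iff, norm_mul_e h0]
    exact h1

theorem ker_ne {v z : ℂ} (hv : ‖v‖ = 1) (hz : ‖z‖ < 1) : 1 - v * z ≠ 0 :=
  one_sub_ne (by rwa [norm_mul, hv, one_mul])

theorem cont_ker {v : ℂ} (hv : ‖v‖ = 1) {s : ℝ} (h0 : 0 ≤ s) (h1 : s < 1) :
    Continuous fun t => (1 - v * conj (s * e t))⁻¹ :=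
  Continuous.inv₀ (continuous_const.sub (continuous_const.mul
    (continuous_conj.comp (continuous_const.mul continuous_e)))) fun t =>
      ker_ne hv (by rwa [Complex.norm_conj, norm_mul_e h0])

theorem cauchy {G : ℂ → ℂ} (hG : DifferentiableOn ℂ G (ball 0 1)) {s : ℝ} (h0 : 0 < s) (h1 : s < 1)
    {v : ℂ} (hv : ‖v‖ = 1) :
    ∫ t in (-π)..π, G (s * e t) * (1 - v * conj (s * e t))⁻¹ = 2 * π * G (v * (s ^ 2 : ℝ)) := by
  have hw : v * (s ^ 2 : ℝ) ∈ ball (0 : ℂ) s := by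
    rw [mem_ball_zero_iff, norm_mul, hv, one_mul, Complex.norm_real,
      Real.norm_of_nonneg (sq_nonneg s)]
    nlinarith
  have h := (hG.mono (closedBall_subset_ball h1)).circleIntegral_sub_inv_smul hw
  simp only [circleIntegral, deriv_circleMap, circleMap, zero_add, smul_eq_mul] at h
  have hp : Function.Periodic (fun t => G (s * e t) * (1 - v * conj (s * e t))⁻¹) (2 * π) :=
    fun t => by
      have : e (2 * π) = 1 := by simp [e]
      simp only [e_add, this, mul_one]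
  have h2 := hp.intervalIntegral_add_eq 0 (-π)
  rw [zero_add, show -π + 2 * π = π by ring] at h2
  refine mul_left_cancel₀ I_ne_zero ?_
  rw [← h2, ← intervalIntegral.integral_const_mul, show I * (2 * π * G (v * (s ^ 2 : ℝ))) =
    2 * π * I * G (v * (s ^ 2 : ℝ)) by ring, ← h]
  congr 1
  ext t
  have a0 := norm_mul_e h0.le t
  rw [← e]
  generalize (s : ℂ) * e t = z at a0
  have a1 : z ≠ 0 := fun h => by rw [h, norm_zero] at a0; exact h0.ne a0
  rw [show ((s ^ 2 : ℝ) : ℂ) = z * conj z by rw [Complex.mul_conj, Complex.normSq_eq_norm_sq, a0],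
    show z - v * (z * conj z) = z * (1 - v * conj z) by ring, mul_inv]
  field_simp

theorem ofReal_sq (z : ℂ) : ((‖z‖ ^ 2 : ℝ) : ℂ) = conj z * z := by
  rw [Complex.conj_mul']
  push_cast
  rfl

/-- The estimate for three symmetric points. -/
theorem three {G : ℂ → ℂ} (hG : DifferentiableOn ℂ G (ball 0 1)) {s : ℝ} (h0 : 0 < s) (h1 : s < 1) :
    2 * π * ((1 - s ^ 6) * (‖G (1 * (s ^ 2 : ℝ))‖ ^ 2 + ‖G (u * (s ^ 2 : ℝ))‖ ^ 2 +
      ‖G (u ^ 2 * (s ^ 2 : ℝ))‖ ^ 2)) ≤ 3 * ∫ t in (-π)..π, ‖G (s * e t)‖ ^ 2 := by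
  set x0 := G (1 * (s ^ 2 : ℝ))
  set x1 := G (u * (s ^ 2 : ℝ))
  set x2 := G (u ^ 2 * (s ^ 2 : ℝ))
  set κ : ℂ → ℂ := fun z => conj x0 * (1 - 1 * conj z)⁻¹ + conj x1 * (1 - u * conj z)⁻¹ +
    conj x2 * (1 - u ^ 2 * conj z)⁻¹ with hκ
  have k0 := cont_ker norm_one h0.le h1
  have k1 := cont_ker norm_u h0.le h1
  have k2 := cont_ker norm_u2 h0.le h1
  have hκc : Continuous fun t => κ (s * e t) :=
    ((continuous_const.mul k0).add (continuous_const.mul k1)).add (continuous_const.mul k2)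
  have idt : ∀ F : ℂ → ℂ, DifferentiableOn ℂ F (ball 0 1) → ∫ t in (-π)..π, F (s * e t) * κ (s * e t) =
      2 * π * (conj x0 * F (1 * (s ^ 2 : ℝ)) + conj x1 * F (u * (s ^ 2 : ℝ)) +
        conj x2 * F (u ^ 2 * (s ^ 2 : ℝ))) := fun F hF => by
    have hc := cont_circle hF.continuousOn h0.le h1
    have i0 := ((hc.mul k0).intervalIntegrable (μ := volume) (-π) π).const_mul (conj x0)
    have i1 := ((hc.mul k1).intervalIntegrable (μ := volume) (-π) π).const_mul (conj x1)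
    have i2 := ((hc.mul k2).intervalIntegrable (μ := volume) (-π) π).const_mul (conj x2)
    have e1 := intervalIntegral.integral_add (i0.add i1) i2
    rw [intervalIntegral.integral_add i0 i1] at e1
    simp only [intervalIntegral.integral_const_mul, Pi.mul_apply, cauchy hF h0 h1 norm_one,
      cauchy hF h0 h1 norm_u, cauchy hF h0 h1 norm_u2] at e1
    refine Eq.trans ?_ (e1.trans (by ring))
    congr 1
    ext t
    simp only [hκ]
    ring
  set S := ‖x0‖ ^ 2 + ‖x1‖ ^ 2 + ‖x2‖ ^ 2 with hS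
  have hS0 : 0 ≤ S := by positivity
  have ha0 : 0 < s ^ 2 := by positivity
  have ha1 : s ^ 2 < 1 := pow_lt_one₀ h0.le h1 two_ne_zero
  have h6 : 0 < 1 - s ^ 6 := sub_pos.2 (pow_lt_one₀ h0.le h1 (by norm_num))
  have d : ∀ v : ℂ, ‖v‖ = 1 → DifferentiableOn ℂ (fun z : ℂ => (1 - v * z)⁻¹) (ball 0 1) :=
    fun v hv => DifferentiableOn.inv (by fun_prop) fun z hz => ker_ne hv (mem_ball_zero_iff.1 hz)
  have e1 := idt (fun z => x0 * (1 - 1 * z)⁻¹ + x1 * (1 - u ^ 2 * z)⁻¹ + x2 * (1 - u * z)⁻¹)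
    ((((d _ norm_one).const_mul _).add ((d _ norm_u2).const_mul _)).add ((d _ norm_u).const_mul _))
  have e2 : ∀ z : ℂ, (x0 * (1 - 1 * z)⁻¹ + x1 * (1 - u ^ 2 * z)⁻¹ + x2 * (1 - u * z)⁻¹) * κ z =
      (‖κ z‖ ^ 2 : ℝ) := fun z => by
    rw [ofReal_sq]
    congr 1
    simp only [hκ, map_add, map_mul, map_inv₀, map_sub, map_one, Complex.conj_conj, map_pow, conj_u]
    rw [show (u ^ 2) ^ 2 = u by linear_combination u * u_cube]
  have g : ∀ v : ℂ, v ^ 3 = 1 → ‖v‖ = 1 → (1 - v * (s ^ 2 : ℝ))⁻¹ =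
      (1 + v * s ^ 2 + v ^ 2 * s ^ 4) / (1 - s ^ 6 : ℝ) := fun v hv hv' => by
    have a1 : 1 - v * (s ^ 2 : ℝ) ≠ 0 :=
      ker_ne hv' (by rwa [Complex.norm_real, Real.norm_of_nonneg ha0.le])
    rw [eq_div_iff (ofReal_ne_zero.2 h6.ne'), inv_mul_eq_iff_eq_mul₀ a1]
    push_cast
    linear_combination (s : ℂ) ^ 6 * hv
  have g0 := g 1 (by simp) norm_one
  have g1 := g u u_cube norm_u
  have g2 := g (u ^ 2) (by linear_combination (u ^ 3 + 1) * u_cube) norm_u2
  have e3 : (1 - s ^ 6) * ∫ t in (-π)..π, ‖κ (s * e t)‖ ^ 2 = 2 * π * (‖x0 + x1 + x2‖ ^ 2 +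
      s ^ 2 * ‖x0 + u ^ 2 * x1 + u * x2‖ ^ 2 + s ^ 4 * ‖x0 + u * x1 + u ^ 2 * x2‖ ^ 2) := by
    simp only [e2, intervalIntegral.integral_ofReal] at e1
    simp only [← mul_assoc, one_mul] at e1
    rw [show u ^ 2 * u = 1 by linear_combination u_cube, show u * u = u ^ 2 by ring,
      show u ^ 2 * u ^ 2 = u by linear_combination u * u_cube,
      show u * u ^ 2 = 1 by linear_combination u_cube] at e1
    simp only [one_mul] at g0 e1
    rw [g0, g1, g2] at e1
    apply ofReal_injective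
    have h6' : ((1 - s ^ 6 : ℝ) : ℂ) ≠ 0 := ofReal_ne_zero.2 h6.ne'
    rw [ofReal_mul, e1]
    simp only [ofReal_mul, ofReal_add, ofReal_sq, map_add, map_mul, map_pow, conj_u]
    field_simp
    push_cast
    have c3 := u_cube
    have c4 : u ^ 4 = u := by linear_combination u * u_cube
    have c5 : u ^ 5 = u ^ 2 := by linear_combination u ^ 2 * u_cube
    have c6 : u ^ 6 = 1 := by linear_combination (u ^ 3 + 1) * u_cube
    ring_nf
    simp only [c3, c4, c5, c6]
    ring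
  have e4 : ‖x0 + x1 + x2‖ ^ 2 + ‖x0 + u ^ 2 * x1 + u * x2‖ ^ 2 + ‖x0 + u * x1 + u ^ 2 * x2‖ ^ 2 =
      3 * S := by
    apply ofReal_injective
    simp only [hS, ofReal_mul, ofReal_add, ofReal_sq, map_add, map_mul, map_pow, conj_u]
    push_cast
    have c3 := u_cube
    have c4 : u ^ 4 = u := by linear_combination u * u_cube
    have c5 : u ^ 5 = u ^ 2 := by linear_combination u ^ 2 * u_cube
    have c6 : u ^ 6 = 1 := by linear_combination (u ^ 3 + 1) * u_cube
    ring_nf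
    simp only [c3, c4, c5, c6]
    linear_combination (conj x0 * x1 + conj x0 * x2 + conj x1 * x0 + conj x1 * x2 + conj x2 * x0 +
      conj x2 * x1) * u_sum
  have e5 : (1 - s ^ 6) * ∫ t in (-π)..π, ‖κ (s * e t)‖ ^ 2 ≤ 2 * π * (3 * S) := by
    rw [e3, ← e4]
    refine mul_le_mul_of_nonneg_left (add_le_add (add_le_add le_rfl ?_) ?_) Real.two_pi_pos.le
    · exact mul_le_of_le_one_left (sq_nonneg _) ha1.le
    · exact mul_le_of_le_one_left (sq_nonneg _) (pow_le_one₀ h0.le h1.le)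
  have e6 : ∫ t in (-π)..π, G (s * e t) * κ (s * e t) = (2 * π * S : ℝ) := by
    rw [idt G hG]
    simp only [hS, ofReal_mul, ofReal_add, ofReal_sq]
    rfl
  have hc := cont_circle hG.continuousOn h0.le h1
  have i1 := ((hc.norm.pow 2).intervalIntegrable (μ := volume) (-π) π).const_mul (3 / (1 - s ^ 6) / 2)
  have i2 := ((hκc.norm.pow 2).intervalIntegrable (μ := volume) (-π) π).const_mul ((1 - s ^ 6) / 6)
  have e7 := intervalIntegral.norm_integral_le_of_norm_le (μ := volume) (a := -π) (b := π)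
    (f := fun t => G (s * e t) * κ (s * e t)) (by linarith [Real.pi_pos])
    (Eventually.of_forall fun t _ => ?_) (i1.add i2)
  · rw [e6, Complex.norm_real, Real.norm_of_nonneg (by positivity),
      intervalIntegral.integral_add i1 i2, intervalIntegral.integral_const_mul,
      intervalIntegral.integral_const_mul] at e7
    simp only [Pi.pow_apply] at e7
    have e8 : 2 * π * S ≤ 3 / (1 - s ^ 6) * ∫ t in (-π)..π, ‖G (s * e t)‖ ^ 2 := by linarith
    rw [div_mul_eq_mul_div, le_div_iff₀ h6] at e8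
    linarith
  · simp only [Pi.pow_apply, norm_mul]
    generalize ‖G (s * e t)‖ = p
    generalize ‖κ (s * e t)‖ = q
    generalize 1 - s ^ 6 = m at h6
    rw [← sub_nonneg, show 3 / m / 2 * p ^ 2 + m / 6 * q ^ 2 - p * q = (3 * p - m * q) ^ 2 / (6 * m) by
      field_simp; ring]
    positivity

theorem three_zero {F : ℂ → ℂ} (hF : DifferentiableOn ℂ F (ball 0 1)) (hF0 : F 0 = 0) {s : ℝ}
    (h0 : 0 < s) (h1 : s < 1) :
    2 * π * ((1 - s ^ 6) * (‖F (1 * (s ^ 2 : ℝ))‖ ^ 2 + ‖F (u * (s ^ 2 : ℝ))‖ ^ 2 +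
      ‖F (u ^ 2 * (s ^ 2 : ℝ))‖ ^ 2)) ≤ s ^ 2 * (3 * ∫ t in (-π)..π, ‖F (s * e t)‖ ^ 2) := by
  have h := three ((Complex.differentiableOn_dslope (ball_mem_nhds 0 one_pos)).2 hF) h0 h1
  have e1 : ∀ z, ‖F z‖ = ‖z‖ * ‖dslope F 0 z‖ := fun z => by
    have := sub_smul_dslope F 0 z
    rw [sub_zero, hF0, sub_zero, smul_eq_mul] at this
    rw [← norm_mul, this]
  have e2 : ∀ v : ℂ, ‖v‖ = 1 → ‖v * (s ^ 2 : ℝ)‖ = s ^ 2 := fun v hv => by
    rw [norm_mul, hv, one_mul, Complex.norm_real, Real.norm_of_nonneg (sq_nonneg s)]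
  simp only [e1, e2 _ norm_one, e2 _ norm_u, e2 _ norm_u2, norm_mul_e h0.le, mul_pow,
    intervalIntegral.integral_const_mul]
  nlinarith [mul_le_mul_of_nonneg_left h (show 0 ≤ s ^ 4 by positivity)]

end Pool.Agent.Lib.MP_7c5c90_an.TR
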