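import Pool.Agent.Lib.MP_7c5c90_an.TR.SC

/-!
Injectivity of the map, and the weight inequality along a radius.
-/

set_option autoImplicit false

open MeasureTheory Set Complex Filter Topology Metric
open scoped Real ComplexConjugate

namespace Pool.Agent.Lib.MP_7c5c90_an.TR

open RP

variable {a b c : ℝ}

theorem polar (z : ℂ) : z = (‖z‖ : ℝ) * e (arg z) := (norm_mul_exp_arg_mul_I z).symm

theorem conj_e (t : ℝ) : conj (e t) = e (-t) := by
  apply Complex.ext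
  · rw [conj_re, e_re, e_re, Real.cos_neg]
  · rw [conj_im, e_im, e_im, Real.sin_neg]

theorem arg_diff {γ : ℝ} (hγ : |γ| < π / 2) {v ξ : ℂ} (hv : v = -e (2 * γ)) (hξ : ‖ξ‖ < 1) :
    |arg (1 - v * ξ) - arg (1 - ξ) - γ| < π / 2 := by
  have h1 := Complex.abs_arg_lt_pi_div_two_iff.2
    (Or.inl (re_one_sub (v := v) (by rw [hv, norm_neg, norm_e]) hξ))
  have h2 := Complex.abs_arg_lt_pi_div_two_iff.2 (Or.inl (re_one_sub' hξ))
  have h3 : (e (-γ) * (1 - v * ξ) * conj (1 - ξ)).re = Real.cos γ * (1 - ‖ξ‖ ^ 2) := by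
    rw [show e (-γ) * (1 - v * ξ) = e (-γ) + e γ * ξ by
      rw [hv, show e γ = e (-γ) * e (2 * γ) by rw [← e_add]; congr 1; ring]; ring,
      ← Complex.normSq_eq_norm_sq, Complex.normSq_apply]
    simp only [mul_re, add_re, add_im, mul_im, conj_re, conj_im, sub_re, sub_im, one_re, one_im,
      e_re, e_im, Real.cos_neg, Real.sin_neg]
    ring
  have h4 : 0 < Real.cos γ * (1 - ‖ξ‖ ^ 2) :=
    mul_pos (Real.cos_pos_of_mem_Ioo (abs_lt.1 hγ))
      (sub_pos.2 (pow_lt_one₀ (norm_nonneg _) hξ two_ne_zero))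
  rw [← h3] at h4
  generalize 1 - v * ξ = x at *
  generalize 1 - ξ = y at *
  have h5 : e (-γ) * x * conj y = (‖x‖ * ‖y‖ : ℝ) * e (arg x - arg y - γ) := by
    conv_lhs => rw [polar x, polar y, map_mul, conj_ofReal, conj_e]
    rw [show arg x - arg y - γ = -γ + arg x + -arg y by ring, e_add, e_add]
    push_cast
    ring
  rw [h5, re_ofReal_mul, e_re, ← Real.cos_abs] at h4
  by_contra h
  have h6 := Real.cos_nonpos_of_pi_div_two_le_of_le (not_lt.1 h) (by
    linarith [abs_sub (arg x - arg y) γ, abs_sub (arg x) (arg y)])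
  exact absurd h4 (not_lt.2 (mul_nonpos_of_nonneg_of_nonpos (by positivity) h6))

theorem e_pi : e π = -1 := Complex.exp_pi_mul_I

theorem phi_pos (h : Ang a b c) {ξ : ℂ} (hξ : ‖ξ‖ < 1) :
    0 < (gd a b c ξ * ((1 - u * ξ) * (1 - u ^ 2 * ξ)) * e (-((b - c) * π / 6))).re := by
  have hp := Real.pi_pos
  have h1 := abs_lt.1 (arg_diff (γ := π / 6) (v := u ^ 2) (by rw [abs_of_pos] <;> linarith) (by
    rw [u, e_pow, neg_eq_neg_one_mul, ← e_pi, ← e_add]; congr 1; push_cast; ring) hξ)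
  have h2 := abs_lt.1 (arg_diff (γ := -(π / 6)) (v := u) (by rw [abs_neg, abs_of_pos] <;> linarith)
    (by rw [u, neg_eq_neg_one_mul (e _), ← e_pi, ← e_add]; congr 1; ring) hξ)
  have e1 : gd a b c ξ * ((1 - u * ξ) * (1 - u ^ 2 * ξ)) * e (-((b - c) * π / 6)) =
      Complex.exp ((a - 1 : ℝ) * Complex.log (1 - ξ) + (b - 1 : ℝ) * Complex.log (1 - u ^ 2 * ξ) +
        (c - 1 : ℝ) * Complex.log (1 - u * ξ) + (Complex.log (1 - u * ξ) +
          Complex.log (1 - u ^ 2 * ξ)) + (-((b - c) * π / 6) : ℝ) * I) := by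
    rw [Complex.exp_add, Complex.exp_add, Complex.exp_add (Complex.log _),
      Complex.exp_log (ker_ne norm_u hξ), Complex.exp_log (ker_ne norm_u2 hξ), gd, e]
  rw [e1, Complex.exp_re]
  refine mul_pos (Real.exp_pos _) (Real.cos_pos_of_mem_Ioo ?_)
  simp only [add_im, im_ofReal_mul, Complex.log_im, mul_I_im, ofReal_re]
  have k1 := mul_pos h.ha hp
  rw [show a = 1 - b - c by linarith [h.hs]] at k1 ⊢
  constructor
  · linarith [mul_lt_mul_of_pos_left h1.1 h.hb, mul_lt_mul_of_pos_left h2.1 h.hc]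
  · linarith [mul_lt_mul_of_pos_left h1.2 h.hb, mul_lt_mul_of_pos_left h2.2 h.hc]

/-- A map of the right half-plane onto the disc. -/
noncomputable def mob (q : ℂ) : ℂ := (q - 1 + u ^ 2) / (u * q + u - u ^ 2)

theorem u_im_sq : u.im ^ 2 = 3 / 4 := by
  have h := Complex.normSq_eq_norm_sq u
  rw [norm_u, Complex.normSq_apply, u_re] at h
  linarith

theorem mob_norm (q : ℂ) : ‖u * q + u - u ^ 2‖ ^ 2 = ‖q - 1 + u ^ 2‖ ^ 2 + 6 * q.re := by
  rw [← Complex.normSq_eq_norm_sq, ← Complex.normSq_eq_norm_sq, Complex.normSq_apply,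
    Complex.normSq_apply, ← conj_u]
  simp only [add_re, sub_re, mul_re, add_im, sub_im, mul_im, conj_re, conj_im, one_re, one_im, u_re]
  linear_combination (q.re ^ 2 + q.im ^ 2 + 4 * q.re + 3) * u_im_sq

theorem u_sub_ne : u - u ^ 2 ≠ 0 := fun h => by
  have := sep_u.2.2
  rw [norm_sub_rev, h, norm_zero] at this
  linarith

theorem mob_spec {q : ℂ} (hq : 0 < q.re) : ‖mob q‖ < 1 ∧
    HasDerivAt mob ((1 - u * mob q) * (1 - u ^ 2 * mob q) / ((u - u ^ 2) * q)) q := by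
  have h1 : ‖q - 1 + u ^ 2‖ < ‖u * q + u - u ^ 2‖ :=
    lt_of_pow_lt_pow_left₀ 2 (norm_nonneg _) (by rw [mob_norm]; linarith)
  have h2 := (norm_nonneg _).trans_lt h1
  have h3 := norm_pos_iff.1 h2
  have h4 : q ≠ 0 := fun h => by simp [h] at hq
  have h5 := u_sub_ne
  refine ⟨by rwa [mob, norm_div, div_lt_one h2], ?_⟩
  have h6 := (((hasDerivAt_id q).sub_const 1).add_const (u ^ 2)).div
    ((((hasDerivAt_id q).const_mul u).add_const u).sub_const (u ^ 2)) h3
  refine h6.congr_deriv ?_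
  have e1 : 1 - u * mob q = 3 * u / (u * q + u - u ^ 2) := by
    rw [mob, eq_div_iff h3, sub_mul, mul_assoc, div_mul_cancel₀ _ h3]
    linear_combination (-1) * u_cube - u_sum
  have e2 : 1 - u ^ 2 * mob q = (u - u ^ 2) * q / (u * q + u - u ^ 2) := by
    rw [mob, eq_div_iff h3, sub_mul, mul_assoc, div_mul_cancel₀ _ h3]
    linear_combination (-u) * u_cube
  rw [e1, e2, show 1 * (u * id q + u - u ^ 2) - (id q - 1 + u ^ 2) * (u * 1) = 3 * u by
    simp only [id]; linear_combination (-1) * u_cube - u_sum]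
  simp only [id]
  generalize u * q + u - u ^ 2 = D at h3
  generalize u - u ^ 2 = E at h5
  field_simp

theorem mob_surj {ξ : ℂ} (hξ : ‖ξ‖ < 1) : ∃ w : ℂ, |w.im| < π / 2 ∧ mob (Complex.exp w) = ξ := by
  have h0 := ker_ne norm_u hξ
  have hu : u ≠ 0 := e_ne _
  set q := (1 - u ^ 2) * (1 - u ^ 2 * ξ) / (1 - u * ξ) with hq
  have h1 : u * q + u - u ^ 2 = 3 * u / (1 - u * ξ) := by
    rw [hq, eq_div_iff h0, sub_mul, add_mul, mul_assoc, div_mul_cancel₀ _ h0]
    linear_combination (u ^ 2 * ξ - 1) * u_cube - u_sum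
  have h2 : q - 1 + u ^ 2 = ξ * (3 * u / (1 - u * ξ)) := by
    rw [hq, ← mul_div_assoc, eq_div_iff h0, add_mul, sub_mul, div_mul_cancel₀ _ h0]
    linear_combination ξ * (u - 1) * u_cube - ξ * u_sum
  have h3 : 3 * u / (1 - u * ξ) ≠ 0 := div_ne_zero (mul_ne_zero three_ne_zero hu) h0
  have h4 := mob_norm q
  rw [h1, h2, norm_mul, mul_pow] at h4
  have h5 : 0 < q.re := by
    have := mul_lt_mul_of_pos_right (pow_lt_one₀ (norm_nonneg _) hξ two_ne_zero)
      (pow_pos (norm_pos_iff.2 h3) 2)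
    linarith
  refine ⟨Complex.log q, ?_, ?_⟩
  · rw [Complex.log_im]
    exact Complex.abs_arg_lt_pi_div_two_iff.2 (Or.inl h5)
  · rw [Complex.exp_log (fun h => by simp [h] at h5), mob, h1, h2, mul_div_cancel_right₀ _ h3]

theorem injOn_gs (h : Ang a b c) : InjOn (gs a b c) (ball 0 1) := by
  intro x hx y hy hxy
  obtain ⟨v, hv, rfl⟩ := mob_surj (mem_ball_zero_iff.1 hx)
  obtain ⟨w, hw, rfl⟩ := mob_surj (mem_ball_zero_iff.1 hy)
  by_contra hne
  have hd0 : w - v ≠ 0 := sub_ne_zero.2 fun h => hne (by rw [h])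
  have hre : ∀ t ∈ Icc (0 : ℝ) 1, 0 < (Complex.exp (v + t * (w - v))).re := fun t ht => by
    rw [Complex.exp_re, add_im, im_ofReal_mul, sub_im]
    refine mul_pos (Real.exp_pos _) (Real.cos_pos_of_mem_Ioo ?_)
    simpa using (convex_Ioo _ _).add_smul_sub_mem (abs_lt.1 hv) (abs_lt.1 hw) ht
  set κ := (u - u ^ 2) * e (-((b - c) * π / 6)) / (w - v) with hκ
  have hd : ∀ t ∈ Icc (0 : ℝ) 1, ∃ d : ℝ, 0 < d ∧
      HasDerivAt (fun t : ℝ => (κ * gs a b c (mob (Complex.exp (v + t * (w - v))))).re) d t :=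
    fun t ht => by
      obtain ⟨a1, a2⟩ := mob_spec (hre t ht)
      have a3 := ((hasDerivAt_gs (a := a) (b := b) (c := c) (mem_Ud a1)).comp _ a2).comp _
        (Complex.hasDerivAt_exp (v + t * (w - v)))
      refine ⟨_, phi_pos h a1, (reCLM.hasFDerivAt.comp_hasDerivAt t
        ((deriv_line a3).const_mul κ)).congr_deriv ?_⟩
      rw [reCLM_apply, hκ]
      congr 1
      have k1 := u_sub_ne
      have := Complex.exp_ne_zero (v + t * (w - v))
      generalize u - u ^ 2 = E at k1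
      field_simp
  have hm := strictMonoOn_of_deriv_pos (convex_Icc 0 1)
    (f := fun t : ℝ => (κ * gs a b c (mob (Complex.exp (v + t * (w - v))))).re)
    (fun s hs => by
      obtain ⟨d, -, h'⟩ := hd s hs
      exact h'.continuousAt.continuousWithinAt) (fun t ht => by
      obtain ⟨d, h0, h'⟩ := hd t (interior_subset ht)
      rwa [h'.deriv]) (left_mem_Icc.2 zero_le_one) (right_mem_Icc.2 zero_le_one) zero_lt_one
  simp [hxy] at hm

theorem norm_real_factor (x : ℝ) : ‖1 - u * x‖ = (1 + x + x ^ 2) ^ (1 / 2 : ℝ) ∧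
    ‖1 - u ^ 2 * x‖ = (1 + x + x ^ 2) ^ (1 / 2 : ℝ) := by
  have h : ‖1 - u * x‖ = (1 + x + x ^ 2) ^ (1 / 2 : ℝ) := by
    rw [← Real.sqrt_eq_rpow, Complex.norm_def, Complex.normSq_apply]
    congr 1
    simp only [sub_re, one_re, re_mul_ofReal, sub_im, one_im, im_mul_ofReal, u_re]
    linear_combination x ^ 2 * u_im_sq
  refine ⟨h, ?_⟩
  rw [← h, ← Complex.norm_conj (1 - u * x), map_sub, map_one, map_mul, conj_u, conj_ofReal]

theorem norm_gd_real (h : Ang a b c) {x : ℝ} (h0 : 0 ≤ x) (h1 : x < 1) :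
    ‖gd a b c x‖ = (1 - x) ^ (a - 1) * (1 + x + x ^ 2) ^ ((1 - a) / 2 - 1) := by
  have hq : 0 < 1 + x + x ^ 2 := by positivity
  rw [norm_gd (by rwa [Complex.norm_real, Real.norm_of_nonneg h0]), (norm_real_factor x).1,
    (norm_real_factor x).2, ← Real.rpow_mul hq.le, ← Real.rpow_mul hq.le, mul_assoc,
    ← Real.rpow_add hq, show (1 - x : ℂ) = (1 - x : ℝ) by norm_cast, Complex.norm_real,
    Real.norm_of_nonneg (sub_nonneg.2 h1.le)]
  congr 2
  linarith [h.hs]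

/-- The weight inequality. -/
theorem weight (h : Ang a b c) {s : ℝ} (h0 : 0 < s) (h1 : s < 1) :
    3 * s * (a * ‖gs a b c 1 - gs a b c (s ^ 2 : ℝ)‖) ≤ (1 - s ^ 6) * ‖gd a b c (s ^ 2 : ℝ)‖ := by
  have ha := h.ha
  set R : ℝ → ℝ := fun x => (1 - x ^ 2) ^ a * (1 + x ^ 2 + (x ^ 2) ^ 2) ^ ((1 - a) / 2) /
    (3 * a * x) with hR
  have hp : ∀ x : ℝ, 0 < x → x < 1 → (1 - x ^ 2) ^ a = (1 - x ^ 2) * (1 - x ^ 2) ^ (a - 1) ∧
      (1 + x ^ 2 + (x ^ 2) ^ 2) ^ ((1 - a) / 2) =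
        (1 + x ^ 2 + (x ^ 2) ^ 2) * (1 + x ^ 2 + (x ^ 2) ^ 2) ^ ((1 - a) / 2 - 1) := fun x a b => by
    have k1 := (sub_pos.2 (pow_lt_one₀ a.le b two_ne_zero)).ne'
    have k2 : 1 + x ^ 2 + (x ^ 2) ^ 2 ≠ 0 := by positivity
    rw [Real.rpow_sub_one k1, Real.rpow_sub_one k2, mul_div_cancel₀ _ k1, mul_div_cancel₀ _ k2]
    exact ⟨rfl, rfl⟩
  have hd : ∀ x : ℝ, 0 < x → x < 1 → ∃ d, HasDerivAt R d x ∧
      ‖gd a b c (x ^ 2 : ℝ) * (2 * x : ℝ)‖ ≤ -d := fun x x0 x1 => by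
    have k1 := pow_lt_one₀ x0.le x1 two_ne_zero
    have a1 := ((hasDerivAt_pow 2 x).const_sub 1).rpow_const (p := a) (Or.inl (sub_pos.2 k1).ne')
    have a2 := (((hasDerivAt_pow 2 x).const_add 1).add ((hasDerivAt_pow 2 x).pow 2)).rpow_const
      (p := (1 - a) / 2) (Or.inl (by simp only [Pi.add_apply, Pi.pow_apply]; positivity))
    refine ⟨_, (a1.mul a2).div ((hasDerivAt_id x).const_mul (3 * a)) (by change 3 * a * x ≠ 0; positivity),
      ?_⟩
    rw [norm_mul, norm_gd_real h (sq_nonneg x) k1, Complex.norm_real,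
      Real.norm_of_nonneg (by positivity)]
    simp only [Pi.add_apply, Pi.pow_apply, Pi.mul_apply]
    rw [(hp x x0 x1).1, (hp x x0 x1).2]
    have p1 := Real.rpow_pos_of_pos (sub_pos.2 k1) (a - 1)
    have p2 := Real.rpow_pos_of_pos (show 0 < 1 + x ^ 2 + (x ^ 2) ^ 2 by positivity) ((1 - a) / 2 - 1)
    generalize (1 - x ^ 2) ^ (a - 1) = X at p1
    generalize (1 + x ^ 2 + (x ^ 2) ^ 2) ^ ((1 - a) / 2 - 1) = Y at p2
    have k2 : 0 ≤ ((1 - x ^ 2) * (1 - (x ^ 2) ^ 2) + 3 * a * x ^ 2 * (1 - x) ^ 2) *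
        (X * Y / (3 * a * x ^ 2)) :=
      mul_nonneg (add_nonneg (mul_nonneg (sub_pos.2 k1).le
        (sub_nonneg.2 (pow_le_one₀ (sq_nonneg x) k1.le))) (by positivity)) (by positivity)
    rw [← sub_nonneg]
    refine k2.trans_eq ?_
    push_cast
    field_simp
    ring
  have hm : ∀ x ∈ Icc s 1, ((x ^ 2 : ℝ) : ℂ) ∈ closedBall (0 : ℂ) 1 := fun x hx => by
    rw [mem_closedBall_zero_iff, Complex.norm_real, Real.norm_of_nonneg (sq_nonneg x)]
    exact pow_le_one₀ (h0.le.trans hx.1) hx.2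
  have hc : ContinuousOn R (Icc s 1) :=
    ContinuousOn.div (ContinuousOn.mul (ContinuousOn.rpow_const (by fun_prop) fun _ _ => Or.inr ha.le)
      (ContinuousOn.rpow_const (by fun_prop) fun _ _ => Or.inl (by positivity))) (by fun_prop)
      fun x hx => by have := h0.trans_le hx.1; positivity
  have key := image_norm_le_of_norm_deriv_right_le_deriv_boundary'
    (f := fun x : ℝ => gs a b c (x ^ 2 : ℝ) - gs a b c (s ^ 2 : ℝ))
    (f' := fun x : ℝ => gd a b c (x ^ 2 : ℝ) * (2 * x : ℝ)) (a := s) (b := 1)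
    (((continuousOn_gs h).comp (by fun_prop) hm).sub continuousOn_const) (fun x hx => by
      have k1 := pow_lt_one₀ (h0.le.trans hx.1) hx.2 two_ne_zero
      have a1 := (hasDerivAt_gs (a := a) (b := b) (c := c) (mem_Ud (z := (x ^ 2 : ℝ))
        (by rwa [Complex.norm_real, Real.norm_of_nonneg (sq_nonneg x)]))).comp_of_eq x
          (hasDerivAt_pow 2 x).ofReal_comp rfl
      exact ((a1.sub_const _).congr_deriv (by simp)).hasDerivWithinAt)
    (B := fun x => R s - R x) (B' := fun x => -deriv R x) (by simp) (continuousOn_const.sub hc)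
    (fun x hx => by
      obtain ⟨d, k, -⟩ := hd x (h0.trans_le hx.1) hx.2
      rw [k.deriv]
      exact (k.const_sub _).hasDerivWithinAt) (fun x hx => by
      obtain ⟨d, k, k'⟩ := hd x (h0.trans_le hx.1) hx.2
      rwa [k.deriv]) (right_mem_Icc.2 h1.le)
  simp only [hR, one_pow, ofReal_one, sub_self, Real.zero_rpow ha.ne', zero_mul, zero_div,
    sub_zero, (hp s h0 h1).1, (hp s h0 h1).2] at key
  rw [le_div_iff₀ (by positivity)] at key
  rw [norm_gd_real h (sq_nonneg s) (pow_lt_one₀ h0.le h1 two_ne_zero)]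
  linarith

end Pool.Agent.Lib.MP_7c5c90_an.TR
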