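import Pool.Agent.Lib.MP_7c5c90_an.TR.Upper

/-!
The corner lower bound on a triangle, and the exact constant of the normalised triangle.
-/

set_option autoImplicit false

open MeasureTheory Set Complex Filter Topology Metric
open scoped Real ComplexConjugate

namespace Pool.Agent.Lib.MP_7c5c90_an.TR

open RP

variable {θ d δ R : ℝ}

theorem re_rot (h0 : 0 < θ) (h1 : θ < π / 2) (z : ℂ) : 0 < Real.sin θ ∧ 0 < Real.cos θ ∧
    (e (-θ) * z).re = Real.cos θ * (z.re - ct (2 * θ) * z.im) + z.im / (2 * Real.sin θ) ∧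
      (e (-(2 * θ)) * z).im = -(2 * Real.sin θ * Real.cos θ * (z.re - ct (2 * θ) * z.im)) := by
  have hs := Real.sin_pos_of_pos_of_lt_pi h0 (by linarith)
  have hc := Real.cos_pos_of_mem_Ioo (x := θ) ⟨by linarith, h1⟩
  refine ⟨hs, hc, ?_, ?_⟩
  · rw [mul_re, e_re, e_im, Real.cos_neg, Real.sin_neg, ct, Real.sin_two_mul, Real.cos_two_mul']
    field_simp
    linear_combination z.im * Real.sin_sq_add_cos_sq θ
  · rw [mul_im, e_re, e_im, Real.cos_neg, Real.sin_neg, ct, Real.sin_two_mul]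
    field_simp
    ring

theorem re_pos (h0 : 0 < θ) (h1 : θ < π / 2) (hδ : 0 < δ) {z : ℂ} (hz : z ∈ cTr (ct (2 * θ)) d 0 1) :
    0 < (e (-θ) * z + δ).re := by
  obtain ⟨hs, hc, a1, -⟩ := re_rot h0 h1 z
  obtain ⟨b1, b2, -⟩ := hz
  rw [sub_zero] at b1 b2
  have := sub_nonneg.2 b2
  rw [add_re, ofReal_re, a1]
  positivity

theorem mem_Box (h0 : 0 < θ) (h1 : θ < π / 2) (hδ : 0 < δ) {z : ℂ}
    (hz : z ∈ Tr (ct (2 * θ)) d 0 1) (hR : ‖z‖ + δ < R) : e (-θ) * z + δ ∈ Box δ R θ := by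
  obtain ⟨hs, hc, a1, a2⟩ := re_rot h0 h1 z
  obtain ⟨b1, b2, -⟩ := hz
  rw [sub_zero] at b1 b2
  have b3 := sub_pos.2 b2
  have c0 : ‖e (-θ) * z + δ‖ < R := by
    have := norm_add_le (e (-θ) * z) δ
    rw [norm_mul, norm_e, one_mul, Complex.norm_real, Real.norm_of_nonneg hδ.le] at this
    linarith
  have c1 : δ < (e (-θ) * z + δ).re := by
    rw [add_re, ofReal_re, a1, lt_add_iff_pos_left]
    positivity
  have c2 : 0 < (e θ * (e (-θ) * z + δ)).im := by
    rw [mul_add, ← mul_assoc, ← e_add, add_neg_cancel, e_zero, one_mul, add_im, im_mul_ofReal, e_im]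
    positivity
  have c3 : (e (-θ) * (e (-θ) * z + δ)).im < 0 := by
    rw [mul_add, ← mul_assoc, ← e_add, show -θ + -θ = -(2 * θ) by ring, add_im, a2, im_mul_ofReal,
      e_im, Real.sin_neg]
    have : 0 < 2 * Real.sin θ * Real.cos θ * (z.re - ct (2 * θ) * z.im) + Real.sin θ * δ := by
      positivity
    linarith
  generalize e (-θ) * z + δ = y at *
  have c4 : ∀ s, (e s * y).im = ‖y‖ * Real.sin (s + arg y) := fun s => by
    conv_lhs => rw [polar y, mul_left_comm, ← e_add, im_ofReal_mul, e_im]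
  have c5 := abs_lt.1 (Complex.abs_arg_lt_pi_div_two_iff.2 (Or.inl (hδ.trans c1)))
  rw [c4] at c2 c3
  refine ⟨⟨c1.trans_le (re_le_norm y), c0⟩, ?_, ?_⟩
  · by_contra h
    exact absurd c2 (not_lt.2 (mul_nonpos_of_nonneg_of_nonpos (norm_nonneg _)
      (Real.sin_nonpos_of_nonpos_of_neg_pi_le (by linarith) (by linarith))))
  · by_contra h
    exact absurd c3 (not_lt.2 (mul_nonneg (norm_nonneg _)
      (Real.sin_nonneg_of_nonneg_of_le_pi (by linarith) (by linarith))))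

theorem polar_le {Q : Set ℂ} (h0 : 0 < θ) (h1 : θ < π / 2) (hδ : 0 < δ) (hR : δ ≤ R)
    (hQ : ∀ z ∈ Q, e (-θ) * z + δ ∈ Box δ R θ) {φ : ℝ → ℝ} (hφ0 : ∀ r, 0 ≤ φ r)
    (hφ : ContinuousOn φ (Icc δ R)) :
    ∫ z in Q, φ ‖e (-θ) * z + δ‖ ≤ 2 * θ * ∫ r in δ..R, r * φ r := by
  have hc : ContinuousOn (fun y : ℂ => φ ‖y‖) {z | ‖z‖ ∈ Icc δ R} :=
    hφ.comp continuous_norm.continuousOn fun _ hy => hy
  have hi : IntegrableOn (fun y : ℂ => φ ‖y‖) (Box δ R θ) :=
    (hc.integrableOn_compact (Metric.isCompact_of_isClosed_isBounded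
      (isClosed_Icc.preimage continuous_norm)
      (isBounded_iff_forall_norm_le.2 ⟨_, fun _ hz => hz.2⟩))).mono_set
        fun _ hz => Ioo_subset_Icc_self hz.1
  have hmp := (measurePreserving_add_right volume (δ : ℂ)).comp (mp_mul (norm_e (-θ))).1
  have hme := (MeasurableEquiv.addRight (δ : ℂ)).measurableEmbedding.comp (mp_mul (norm_e (-θ))).2
  have e1 := hmp.setIntegral_preimage_emb hme (fun y : ℂ => φ ‖y‖) (Box δ R θ)
  have e2 := (hmp.integrableOn_comp_preimage hme).2 hi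
  have e3 := (polar_box hδ.le hR h0.le (by linarith) hc).2
  have e4 := setIntegral_mono_set e2 (Eventually.of_forall fun _ => hφ0 _)
    (LE.le.eventuallyLE (s := Q) hQ)
  simp only [Function.comp_apply] at e1 e4
  refine e4.trans (le_of_eq ?_)
  rw [e1, e3, ← intervalIntegral.integral_const_mul]
  refine intervalIntegral.integral_congr fun r hr => ?_
  rw [uIcc_of_le hR] at hr
  simp only [norm_mul_e (hδ.le.trans hr.1), intervalIntegral.integral_const, smul_eq_mul]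
  ring

theorem tests (h0 : 0 < θ) (h1 : θ < π / 2) {t : ℝ} (ht : 0 < t) (ht1 : 1 = t * (ct (2 * θ) + d)) :
    ∃ B C D : ℝ, ∀ L : ℝ, 0 ≤ L → ∃ w : ℂ → ℂ, DifferentiableOn ℂ w (Tr (ct (2 * θ)) d 0 1) ∧
      IntegrableOn (fun z => (w z).re) (Tr (ct (2 * θ)) d 0 1) ∧
      IntegrableOn (fun z => (w z).re ^ 2) (Tr (ct (2 * θ)) d 0 1) ∧
      IntegrableOn (fun z => (w z).im ^ 2) (Tr (ct (2 * θ)) d 0 1) ∧
      ∫ z in Tr (ct (2 * θ)) d 0 1, ((w z).re ^ 2 + (w z).im ^ 2) ≤ 2 * θ * (B + L) ∧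
      Real.sin (2 * θ) * L - C ≤ ∫ z in Tr (ct (2 * θ)) d 0 1, ((w z).re ^ 2 - (w z).im ^ 2) ∧
      |∫ z in Tr (ct (2 * θ)) d 0 1, (w z).re| ≤ D := by
  have hcd : 0 < ct (2 * θ) + d := pos_of_mul_pos_left' (ht1 ▸ one_pos) ht
  have hs := Real.sin_pos_of_pos_of_lt_pi (x := 2 * θ) (by linarith) (by linarith)
  obtain ⟨R, hR0, hR⟩ := (isCompact_cTr (p := 0) (ρ := 1) hcd).isBounded.exists_pos_norm_le
  have hd : (d - I : ℂ) ≠ 0 := fun h => by simpa using congrArg Complex.im h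
  set g : ℝ → ℂ := fun δ => (d - I)⁻¹ * (-e (2 * θ) * Complex.log (e (-θ) * (0 + (1 : ℝ)) + δ)) +
    -(Real.sin (2 * θ) * e (-(2 * θ)) + (d - I)⁻¹) *
      (-e (2 * θ) * Complex.log (e (-θ) * (0 + t * (ct (2 * θ) + I)) + δ)) with hg
  have hgc : ContinuousOn g (Icc 0 1) := by
    refine (continuousOn_const.mul (continuousOn_const.mul (ContinuousOn.clog (by fun_prop)
      fun x hx => Or.inl ?_))).add (continuousOn_const.mul (continuousOn_const.mul
        (ContinuousOn.clog (by fun_prop) fun x hx => Or.inl ?_)))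
    · obtain ⟨a1, a2, a3, -⟩ := re_rot h0 h1 (0 + (1 : ℝ))
      have := hx.1
      rw [add_re, a3]
      simp only [zero_add, ofReal_re, ofReal_im, mul_zero, sub_zero, zero_div]
      positivity
    · obtain ⟨a1, a2, a3, -⟩ := re_rot h0 h1 (0 + t * (ct (2 * θ) + I))
      have := hx.1
      rw [add_re, a3]
      simp only [zero_add, re_ofReal_mul, im_ofReal_mul, add_re, add_im, ofReal_re, ofReal_im, I_re,
        I_im, add_zero, mul_one, mul_comm t (ct _), sub_self, mul_zero]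
      positivity
  obtain ⟨C, hC⟩ := isCompact_Icc.exists_bound_of_continuousOn hgc
  refine ⟨Real.log (R + 2), C, 2 * θ * (R + 2), fun L hL => ?_⟩
  obtain ⟨δ, hδ, hδ1, rfl⟩ : ∃ δ : ℝ, 0 < δ ∧ δ ≤ 1 ∧ L = -Real.log δ :=
    ⟨Real.exp (-L), Real.exp_pos _, Real.exp_le_one_iff.2 (neg_nonpos.2 hL), by
      rw [Real.log_exp, neg_neg]⟩
  have hδR : δ ≤ R + 2 := by linarith
  have hre := fun z hz => re_pos (d := d) (z := z) h0 h1 hδ hz
  have hne : ∀ z ∈ cTr (ct (2 * θ)) d 0 1, e (-θ) * z + δ ≠ 0 := fun z hz h => by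
    simpa [h] using hre z hz
  have hB : ∀ z ∈ Tr (ct (2 * θ)) d 0 1, e (-θ) * z + δ ∈ Box δ (R + 2) θ := fun z hz =>
    mem_Box h0 h1 hδ hz (by linarith [hR z (Tr_subset hz)])
  have hw : DifferentiableOn ℂ (fun z => (e (-θ) * z + δ)⁻¹) (cTr (ct (2 * θ)) d 0 1) :=
    DifferentiableOn.inv (by fun_prop) hne
  have hc := hw.continuousOn
  refine ⟨fun z => (e (-θ) * z + δ)⁻¹, hw.mono Tr_subset,
    integrableOn_Tr hcd (continuous_re.comp_continuousOn hc),
    integrableOn_Tr hcd ((continuous_re.comp_continuousOn hc).pow 2),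
    integrableOn_Tr hcd ((continuous_im.comp_continuousOn hc).pow 2), ?_, ?_, ?_⟩
  · have := polar_le h0 h1 hδ hδR hB (φ := fun r => r⁻¹ ^ 2) (fun r => sq_nonneg _)
      ((continuousOn_id.inv₀ fun r hr => (hδ.trans_le hr.1).ne').pow 2)
    rw [intervalIntegral.integral_congr (g := fun r => r⁻¹) (fun r hr => by
        rw [uIcc_of_le hδR] at hr
        have := (hδ.trans_le hr.1).ne'
        simp only
        field_simp), integral_inv_of_pos hδ (by linarith), Real.log_div (by positivity) hδ.ne',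
      sub_eq_add_neg] at this
    refine le_trans (le_of_eq ?_) this
    congr 1
    ext z
    rw [← norm_inv, ← Complex.normSq_eq_norm_sq, Complex.normSq_apply]
    ring
  · have e1 := reCLM.integral_comp_comm (integrableOn_Tr hcd (hc.pow 2))
    have e2 : ∀ z : ℂ, z.re ^ 2 - z.im ^ 2 = (z ^ 2).re := fun z => by simp [sq]
    have e0 : e θ * e (-θ) = 1 := by rw [← e_add, add_neg_cancel, e_zero]
    have dy : ∀ z, HasDerivAt (fun z => e (-θ) * z + δ) (e (-θ)) z := fun z => by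
      simpa using ((hasDerivAt_id z).const_mul (e (-θ))).add_const (δ : ℂ)
    have e3 := davis hcd ht ht1 (f := fun z => (e (-θ) * z + δ)⁻¹ ^ 2)
      (H1 := fun z => -e θ * (e (-θ) * z + δ)⁻¹)
      (H := fun z => -e (2 * θ) * Complex.log (e (-θ) * z + δ)) (hc.pow 2)
      (fun z hz => (((dy z).inv (hne z hz)).const_mul _).congr_deriv (by
        rw [div_eq_mul_inv, ← inv_pow]
        linear_combination (e (-θ) * z + δ)⁻¹ ^ 2 * e0))
      (fun z hz => (((dy z).clog (Or.inl (hre z hz))).const_mul _).congr_deriv (by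
        rw [div_eq_mul_inv, two_mul, e_add]
        linear_combination (-e θ * (e (-θ) * z + δ)⁻¹) * e0))
      (ct_coef hs).1 (inv_mul_cancel₀ hd)
    have e4 : e (-(2 * θ)) * e (2 * θ) = 1 := by rw [← e_add, neg_add_cancel, e_zero]
    simp only [reCLM_apply, Pi.pow_apply] at e1
    simp only [e2, e1, e3]
    rw [add_assoc, mul_zero, zero_add, ← Complex.ofReal_log hδ.le,
      show Real.sin (2 * θ) * e (-(2 * θ)) * (-e (2 * θ) * (Real.log δ : ℝ)) =
        (Real.sin (2 * θ) * -Real.log δ : ℝ) by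
          rw [ofReal_mul, ofReal_neg]
          linear_combination (-(Real.sin (2 * θ) : ℂ) * (Real.log δ : ℝ)) * e4, add_re, ofReal_re]
    linarith [(abs_le.1 ((abs_re_le_norm (g δ)).trans (hC δ ⟨hδ.le, hδ1⟩))).1]
  · have := polar_le h0 h1 hδ hδR hB (φ := fun r => |r⁻¹|) (fun r => abs_nonneg _)
      (continuousOn_id.inv₀ fun r hr => (hδ.trans_le hr.1).ne').abs
    rw [intervalIntegral.integral_congr (g := fun _ => 1) (fun r hr => by
        rw [uIcc_of_le hδR] at hr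
        have := hδ.trans_le hr.1
        simp only
        rw [abs_of_pos (inv_pos.2 this), mul_inv_cancel₀ this.ne'])] at this
    simp only [← norm_inv, abs_norm, intervalIntegral.integral_const, smul_eq_mul, mul_one] at this
    refine (norm_integral_le_of_norm_le (f := fun z => ((e (-θ) * z + δ)⁻¹).re)
      (integrableOn_Tr hcd hc).norm (Eventually.of_forall fun z => abs_re_le_norm _)).trans
        (this.trans ?_)
    exact mul_le_mul_of_nonneg_left (by linarith) (by linarith)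

/-- The admissible constants in Friedrichs' inequality on `Q`. -/
def Adm (Q : Set ℂ) : Set ℝ := {Γ : ℝ | ∀ w : ℂ → ℂ, DifferentiableOn ℂ w Q →
  IntegrableOn (fun z => (w z).re ^ 2) Q → IntegrableOn (fun z => (w z).im ^ 2) Q →
  ∫ z in Q, (w z).re = 0 → ∫ z in Q, (w z).re ^ 2 ≤ Γ * ∫ z in Q, (w z).im ^ 2}

theorem normalised {A B : ℝ} (hA : 0 < A) (hB : A ≤ B) (hC : A ≤ π - A - B) :
    IsLeast (Adm (Tr (ct A) (ct B) 0 1)) ((A + Real.sin A) / (A - Real.sin A)) := by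
  have hp := Real.pi_pos
  obtain ⟨a, rfl⟩ : ∃ a, A = π * a := ⟨A / π, by field_simp⟩
  obtain ⟨b, rfl⟩ : ∃ b, B = π * b := ⟨B / π, by field_simp⟩
  have ha := pos_of_mul_pos_left' hA hp
  have hb := le_of_mul_le_mul_left hB hp
  have hc : a ≤ 1 - a - b := le_of_mul_le_mul_left (by linarith) hp
  have h : Ang a b (1 - a - b) := ⟨ha, ha.trans_le hb, ha.trans_le hc, by ring⟩
  obtain ⟨z0, hz, hk⟩ := key h hb hc
  obtain ⟨-, t, -, ht, ht1, -, -⟩ := vertices h
  have hV : volume (Tr (ct (π * a)) (ct (π * b)) 0 1) ≠ ⊤ := ((measure_mono Tr_subset).trans_lt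
    (isCompact_cTr (pos_of_mul_pos_left' (ht1 ▸ one_pos) ht)).measure_lt_top).ne
  refine ⟨upper_of isOpen_Tr.measurableSet hV h.sin_pos.le (Real.sin_lt hA) hk, ?_⟩
  have e : π * a = 2 * (π * a / 2) := by ring
  rw [e] at ht1
  obtain ⟨B, C, D, hT⟩ := tests (θ := π * a / 2) (by linarith) (by linarith) ht ht1
  rw [← e] at hT
  exact lower_of hV (isOpen_Tr.measure_ne_zero volume ⟨z0, hz⟩) h.sin_pos (Real.sin_lt hA) hT

end Pool.Agent.Lib.MP_7c5c90_an.TR
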