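import Pool.Agent.Lib.MP_7c5c90_an.TR.Abs

/-!
The Schwarz-Christoffel map of the disc into a triangle, with the cube roots of unity as
preimages of the vertices.
-/

set_option autoImplicit false

open MeasureTheory Set Complex Filter Topology Metric
open scoped Real ComplexConjugate

namespace Pool.Agent.Lib.MP_7c5c90_an.TR

open RP

variable {a b c : ℝ}

/-- The angles of a triangle divided by `π`. -/
structure Ang (a b c : ℝ) : Prop where
  ha : 0 < a
  hb : 0 < b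
  hc : 0 < c
  hs : a + b + c = 1

theorem Ang.rot (h : Ang a b c) : Ang b c a := ⟨h.hb, h.hc, h.ha, by linarith [h.hs]⟩

theorem Ang.lt (h : Ang a b c) : a < 1 := by linarith [h.hb, h.hc, h.hs]

/-- The derivative of the map. -/
noncomputable def gd (a b c : ℝ) (ξ : ℂ) : ℂ :=
  Complex.exp ((a - 1 : ℝ) * Complex.log (1 - ξ) + (b - 1 : ℝ) * Complex.log (1 - u ^ 2 * ξ) +
    (c - 1 : ℝ) * Complex.log (1 - u * ξ))

/-- The map. -/
noncomputable def gs (a b c : ℝ) (w : ℂ) : ℂ := ∫ t in (0 : ℝ)..1, w * gd a b c (t * w)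

/-- The plane without three rays. -/
def Ud : Set ℂ := {w | 1 - w ∈ slitPlane ∧ 1 - u ^ 2 * w ∈ slitPlane ∧ 1 - u * w ∈ slitPlane}

theorem isOpen_Ud : IsOpen Ud :=
  (isOpen_slitPlane.preimage (f := fun w : ℂ => 1 - w) (by fun_prop)).inter
    ((isOpen_slitPlane.preimage (f := fun w : ℂ => 1 - u ^ 2 * w) (by fun_prop)).inter
      (isOpen_slitPlane.preimage (f := fun w : ℂ => 1 - u * w) (by fun_prop)))

theorem star_slit {z : ℂ} (h : 1 - z ∈ slitPlane) {t : ℝ} (ht : t ∈ Icc (0 : ℝ) 1) :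
    1 - (t : ℂ) * z ∈ slitPlane := by
  have := starConvex_one_slitPlane h (sub_nonneg.2 ht.2) ht.1 (by ring)
  convert this using 1
  simp only [real_smul]
  push_cast
  ring

theorem Ud_star : ∀ z ∈ Ud, ∀ t : ℝ, t ∈ Icc (0 : ℝ) 1 → (t : ℂ) * z ∈ Ud := fun z hz t ht =>
  ⟨star_slit hz.1 ht, by rw [mul_left_comm]; exact star_slit hz.2.1 ht,
    by rw [mul_left_comm]; exact star_slit hz.2.2 ht⟩

theorem differentiableAt_gd {z : ℂ} (hz : z ∈ Ud) : DifferentiableAt ℂ (gd a b c) z :=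
  ((((DifferentiableAt.clog (f := fun w : ℂ => 1 - w) (x := z) (by fun_prop) hz.1).const_mul
    _).add ((DifferentiableAt.clog (f := fun w : ℂ => 1 - u ^ 2 * w) (x := z) (by fun_prop)
      hz.2.1).const_mul _)).add ((DifferentiableAt.clog (f := fun w : ℂ => 1 - u * w) (x := z)
        (by fun_prop) hz.2.2).const_mul _)).cexp

theorem hasDerivAt_gs {z : ℂ} (hz : z ∈ Ud) : HasDerivAt (gs a b c) (gd a b c z) z :=
  hasDerivAt_radial isOpen_Ud Ud_star
    (fun _ hw => (differentiableAt_gd hw).differentiableWithinAt) hz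

theorem re_one_sub {v z : ℂ} (hv : ‖v‖ = 1) (hz : ‖z‖ < 1) : 0 < (1 - v * z).re := by
  have h1 := re_le_norm (v * z)
  rw [norm_mul, hv, one_mul] at h1
  rw [sub_re, one_re]
  linarith

theorem re_one_sub' {z : ℂ} (hz : ‖z‖ < 1) : 0 < (1 - z).re := by
  simpa using re_one_sub norm_one hz

theorem mem_Ud {z : ℂ} (hz : ‖z‖ < 1) : z ∈ Ud :=
  ⟨Or.inl (re_one_sub' hz), Or.inl (re_one_sub norm_u2 hz), Or.inl (re_one_sub norm_u hz)⟩

theorem gd_rot (z : ℂ) : gd a b c (u * z) = gd b c a z := by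
  rw [gd, gd, show u ^ 2 * (u * z) = z by linear_combination z * u_cube,
    show u * (u * z) = u ^ 2 * z by ring]
  congr 1
  ring

theorem gs_rot (w : ℂ) : gs a b c (u * w) = u * gs b c a w := by
  rw [gs, gs, ← intervalIntegral.integral_const_mul]
  congr 1
  ext t
  rw [mul_left_comm (t : ℂ), gd_rot, mul_assoc]

theorem gd_rot2 (z : ℂ) : gd a b c (u ^ 2 * z) = gd c a b z := by
  rw [sq, mul_assoc, gd_rot, gd_rot]

theorem gs_rot2 (w : ℂ) : gs a b c (u ^ 2 * w) = u ^ 2 * gs c a b w := by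
  rw [sq, mul_assoc, gs_rot, gs_rot, mul_assoc]

theorem norm_gd {z : ℂ} (hz : ‖z‖ < 1) : ‖gd a b c z‖ =
    ‖1 - z‖ ^ (a - 1) * ‖1 - u ^ 2 * z‖ ^ (b - 1) * ‖1 - u * z‖ ^ (c - 1) := by
  rw [Real.rpow_def_of_pos (norm_pos_iff.2 (one_sub_ne hz)),
    Real.rpow_def_of_pos (norm_pos_iff.2 (ker_ne norm_u2 hz)),
    Real.rpow_def_of_pos (norm_pos_iff.2 (ker_ne norm_u hz)), ← Real.exp_add, ← Real.exp_add,
    gd, Complex.norm_exp, add_re, add_re, re_ofReal_mul, re_ofReal_mul, re_ofReal_mul,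
    Complex.log_re, Complex.log_re, Complex.log_re]
  congr 1
  ring

theorem u_re : u.re = -(1 / 2) := by
  rw [u, e_re, show 2 * π / 3 = π - π / 3 by ring, Real.cos_pi_sub, Real.cos_pi_div_three]

theorem u2_re : (u ^ 2).re = -(1 / 2) := by rw [← conj_u, conj_re, u_re]

theorem sep {v v' : ℂ} (hv : ‖v‖ = 1) (hv' : ‖v'‖ = 1) (z : ℂ) :
    ‖v - v'‖ ≤ ‖1 - v * z‖ + ‖1 - v' * z‖ := by
  have := norm_sub_le (v * (1 - v' * z)) (v' * (1 - v * z))
  rw [norm_mul, norm_mul, hv, hv', show v * (1 - v' * z) - v' * (1 - v * z) = v - v' by ring] at this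
  linarith

theorem sep_u : 1 ≤ ‖1 - u‖ ∧ 1 ≤ ‖1 - u ^ 2‖ ∧ 1 ≤ ‖u ^ 2 - u‖ := by
  have h1 := re_le_norm (1 - u)
  have h2 := re_le_norm (1 - u ^ 2)
  rw [sub_re, one_re, u_re] at h1
  rw [sub_re, one_re, u2_re] at h2
  refine ⟨by linarith, by linarith, ?_⟩
  rw [show u ^ 2 - u = -u * (1 - u) by ring, norm_mul, norm_neg, norm_u]
  linarith

theorem rpow_le_two {x α : ℝ} (hx : 1 / 2 ≤ x) (h0 : 0 < α) (h1 : α < 1) : x ^ (α - 1) ≤ 2 := by
  refine (Real.rpow_le_rpow_of_nonpos (by norm_num) hx (by linarith)).trans ?_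
  rw [one_div, Real.inv_rpow two_pos.le, ← Real.rpow_neg two_pos.le]
  exact (Real.rpow_le_rpow_of_exponent_le one_le_two (by linarith)).trans_eq (Real.rpow_one 2)

theorem norm_gd_le (h : Ang a b c) {w : ℂ} (hw : ‖w‖ ≤ 1) {t : ℝ} (h0 : 0 ≤ t) (h1 : t < 1) :
    ‖gd a b c (t * w)‖ ≤ 4 * ((1 - t) ^ (a - 1) + (1 - t) ^ (b - 1) + (1 - t) ^ (c - 1)) := by
  have a1 : ‖(t : ℂ) * w‖ ≤ t := by
    rw [norm_mul, Complex.norm_real, Real.norm_of_nonneg h0]
    exact mul_le_of_le_one_right h0 hw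
  rw [norm_gd (a1.trans_lt h1)]
  generalize (t : ℂ) * w = z at a1
  have a2 : ∀ v : ℂ, ‖v‖ = 1 → ∀ α : ℝ, α < 1 → ‖1 - v * z‖ ^ (α - 1) ≤ (1 - t) ^ (α - 1) :=
    fun v hv α hα => by
      have a3 := norm_sub_norm_le (1 : ℂ) (v * z)
      rw [norm_one, norm_mul, hv, one_mul] at a3
      exact Real.rpow_le_rpow_of_nonpos (by linarith) (by linarith) (by linarith)
  have b0 := a2 1 norm_one a h.lt
  have b1 := a2 _ norm_u2 b h.rot.lt
  have b2 := a2 u norm_u c h.rot.rot.lt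
  have s1 := sep_u.1.trans (sep norm_one norm_u z)
  have s2 := sep_u.2.1.trans (sep norm_one norm_u2 z)
  have s3 := sep_u.2.2.trans (sep norm_u2 norm_u z)
  rw [one_mul] at b0 s1 s2
  have c0 := fun hx => rpow_le_two (x := ‖1 - z‖) hx h.ha h.lt
  have c1 := fun hx => rpow_le_two (x := ‖1 - u ^ 2 * z‖) hx h.hb h.rot.lt
  have c2 := fun hx => rpow_le_two (x := ‖1 - u * z‖) hx h.hc h.rot.rot.lt
  have p0 := Real.rpow_nonneg (norm_nonneg (1 - z)) (a - 1)
  have p1 := Real.rpow_nonneg (norm_nonneg (1 - u ^ 2 * z)) (b - 1)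
  have p2 := Real.rpow_nonneg (norm_nonneg (1 - u * z)) (c - 1)
  have key : ∀ x y z : ℝ, 0 ≤ x → 0 ≤ y → 0 ≤ z → y ≤ 2 → z ≤ 2 → x * (y * z) ≤ 4 * x :=
    fun x y z hx hy hz hy' hz' => by
      rw [mul_comm]
      exact mul_le_mul_of_nonneg_right (by nlinarith) hx
  by_cases k0 : 1 / 2 ≤ ‖1 - z‖
  · by_cases k1 : 1 / 2 ≤ ‖1 - u ^ 2 * z‖
    · linarith [key _ _ _ p2 p0 p1 (c0 k0) (c1 k1)]
    · linarith [key _ _ _ p1 p0 p2 (c0 k0) (c2 (by linarith))]
  · linarith [key _ _ _ p0 p1 p2 (c1 (by linarith)) (c2 (by linarith))]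

theorem continuousOn_gs (h : Ang a b c) : ContinuousOn (gs a b c) (closedBall 0 1) := by
  intro z hz
  have hne : ∀ᵐ t : ℝ, t ≠ 1 := compl_mem_ae_iff.2 (measure_singleton 1)
  have hlt : ∀ w ∈ closedBall (0 : ℂ) 1, ∀ t : ℝ, 0 ≤ t → t < 1 → ‖(t : ℂ) * w‖ < 1 := by
    intro w hw t h0 h1
    rw [norm_mul, Complex.norm_real, Real.norm_of_nonneg h0]
    exact (mul_le_of_le_one_right h0 (mem_closedBall_zero_iff.1 hw)).trans_lt h1
  have hi : ∀ α : ℝ, 0 < α → IntervalIntegrable (fun t : ℝ => (1 - t) ^ (α - 1)) volume 0 1 :=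
    fun α hα => by
      have := (intervalIntegral.intervalIntegrable_rpow' (a := 1) (b := 0) (r := α - 1)
        (by linarith)).comp_sub_left 1
      simpa using this
  refine intervalIntegral.continuousWithinAt_of_dominated_interval
    (bound := fun t => 4 * ((1 - t) ^ (a - 1) + (1 - t) ^ (b - 1) + (1 - t) ^ (c - 1))) ?_ ?_
    ((((hi a h.ha).add (hi b h.hb)).add (hi c h.hc)).const_mul 4) ?_
  · refine Eventually.of_forall fun w => Measurable.aestronglyMeasurable ?_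
    unfold gd
    exact measurable_const.mul (Complex.measurable_exp.comp (((measurable_const.mul
      (Complex.measurable_log.comp (by fun_prop))).add (measurable_const.mul
        (Complex.measurable_log.comp (by fun_prop)))).add (measurable_const.mul
          (Complex.measurable_log.comp (by fun_prop)))))
  · filter_upwards [self_mem_nhdsWithin] with w hw
    filter_upwards [hne] with t ht ht'
    rw [uIoc_of_le zero_le_one] at ht'
    rw [norm_mul]
    exact (mul_le_of_le_one_left (norm_nonneg _) (mem_closedBall_zero_iff.1 hw)).trans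
      (norm_gd_le h (mem_closedBall_zero_iff.1 hw) ht'.1.le (lt_of_le_of_ne ht'.2 ht))
  · filter_upwards [hne] with t ht ht'
    rw [uIoc_of_le zero_le_one] at ht'
    refine ContinuousAt.continuousWithinAt (continuousAt_id.mul ?_)
    exact ContinuousAt.comp (f := fun w : ℂ => (t : ℂ) * w) (differentiableAt_gd
      (mem_Ud (hlt z hz t ht'.1.le (lt_of_le_of_ne ht'.2 ht)))).continuousAt (by fun_prop)

theorem log_one_sub_e {φ : ℝ} (h0 : 0 < φ) (h1 : φ < 2 * π) : 1 - e φ ∈ slitPlane ∧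
    Complex.log (1 - e φ) = (Real.log (2 * Real.sin (φ / 2)) : ℝ) + (φ / 2 - π / 2 : ℝ) * I := by
  have hs := Real.sin_pos_of_pos_of_lt_pi (x := φ / 2) (by linarith) (by linarith)
  have e1 : 1 - e φ = (2 * Real.sin (φ / 2) : ℝ) * e (φ / 2 - π / 2) := by
    obtain ⟨x, rfl⟩ : ∃ x, φ = 2 * x := ⟨φ / 2, by ring⟩
    rw [show 2 * x / 2 = x by ring]
    apply Complex.ext
    · rw [sub_re, one_re, re_ofReal_mul, e_re, e_re, Real.cos_sub_pi_div_two, Real.cos_two_mul,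
        Real.cos_sq']
      ring
    · rw [sub_im, one_im, im_ofReal_mul, e_im, e_im, Real.sin_sub_pi_div_two, Real.sin_two_mul]
      ring
  refine ⟨Or.inl ?_, ?_⟩
  · rw [e1, re_ofReal_mul, e_re, Real.cos_sub_pi_div_two]
    positivity
  · rw [e1, Complex.log_ofReal_mul (by positivity) (e_ne _), e, Complex.log_exp
      (by simp only [mul_I_im, ofReal_re]; linarith) (by simp only [mul_I_im, ofReal_re]; linarith)]

/-- The direction of the outer normal of the first side. -/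
noncomputable def g0 (a b c : ℝ) : ℝ := (1 - a) * π / 2 + (b - c) * π / 6

theorem gd_arc (h : Ang a b c) {t : ℝ} (h0 : 0 < t) (h1 : t < 2 * π / 3) :
    e t ∈ Ud ∧ ∃ r : ℝ, 0 < r ∧ gd a b c (e t) * e t = r * e (g0 a b c) := by
  have hp := Real.pi_pos
  have e1 : u * e t = e (2 * π / 3 + t) := by rw [e_add, u]
  have e2 : u ^ 2 * e t = e (4 * π / 3 + t) := by
    rw [e_add, u, e_pow]
    congr 2
    push_cast
    ring
  obtain ⟨a0, b0⟩ := log_one_sub_e h0 (by linarith)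
  obtain ⟨a1, b1⟩ := log_one_sub_e (φ := 4 * π / 3 + t) (by linarith) (by linarith)
  obtain ⟨a2, b2⟩ := log_one_sub_e (φ := 2 * π / 3 + t) (by linarith) (by linarith)
  refine ⟨⟨a0, e2 ▸ a1, e1 ▸ a2⟩, _, Real.exp_pos ((a - 1) * Real.log (2 * Real.sin (t / 2)) +
    (b - 1) * Real.log (2 * Real.sin ((4 * π / 3 + t) / 2)) +
      (c - 1) * Real.log (2 * Real.sin ((2 * π / 3 + t) / 2))), ?_⟩
  rw [gd, e1, e2, b0, b1, b2, ofReal_exp, e, e, ← Complex.exp_add, ← Complex.exp_add, g0,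
    show a = 1 - b - c by linarith [h.hs]]
  congr 1
  push_cast
  ring

theorem arc_deriv (h : Ang a b c) (κ : ℂ) :
    ContinuousOn (fun t => (κ * gs a b c (e t)).re) (Icc 0 (2 * π / 3)) ∧
      ∀ t ∈ interior (Icc 0 (2 * π / 3)), ∃ r : ℝ, 0 < r ∧
        HasDerivAt (fun t => (κ * gs a b c (e t)).re) (r * (κ * (I * e (g0 a b c))).re) t := by
  refine ⟨continuous_re.comp_continuousOn (continuousOn_const.mul ((continuousOn_gs h).comp
    continuous_e.continuousOn fun t _ => mem_closedBall_zero_iff.2 (norm_e t).le)), fun t ht => ?_⟩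
  rw [interior_Icc] at ht
  obtain ⟨hU, r, hr, h⟩ := gd_arc h ht.1 ht.2
  have a1 : HasDerivAt e (e t * I) t :=
    deriv_ray (b := I) (t := t) (Complex.hasDerivAt_exp _)
  have a2 := ((hasDerivAt_gs (a := a) (b := b) (c := c) hU).comp_of_eq t a1 rfl).const_mul κ
  refine ⟨r, hr, (reCLM.hasFDerivAt.comp_hasDerivAt t a2).congr_deriv ?_⟩
  rw [reCLM_apply, ← mul_assoc (gd a b c _), h, ← re_ofReal_mul]
  congr 1
  ring

theorem arc_mono (h : Ang a b c) {κ : ℂ} (hκ : 0 ≤ (κ * (I * e (g0 a b c))).re) :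
    MonotoneOn (fun t => (κ * gs a b c (e t)).re) (Icc 0 (2 * π / 3)) := by
  obtain ⟨h1, h2⟩ := arc_deriv h κ
  refine monotoneOn_of_deriv_nonneg (convex_Icc _ _) h1 (fun t ht => ?_) fun t ht => ?_
  · obtain ⟨r, -, h⟩ := h2 t ht
    exact h.differentiableAt.differentiableWithinAt
  · obtain ⟨r, hr, h'⟩ := h2 t ht
    rw [h'.deriv]
    exact mul_nonneg hr.le hκ

theorem third_pos : 0 < 2 * π / 3 := by positivity

theorem arc_le (h : Ang a b c) {κ : ℂ} {M : ℝ} (h0 : (κ * gs a b c 1).re ≤ M)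
    (h1 : (κ * gs a b c u).re ≤ M) {t : ℝ} (ht : t ∈ Icc 0 (2 * π / 3)) :
    (κ * gs a b c (e t)).re ≤ M := by
  rcases le_total 0 (κ * (I * e (g0 a b c))).re with k | k
  · exact (arc_mono h k ht (right_mem_Icc.2 third_pos.le) ht.2).trans h1
  · have := arc_mono h (κ := -κ) (by rw [neg_mul, neg_re]; linarith)
      (left_mem_Icc.2 third_pos.le) ht ht.1
    simp only [neg_mul, neg_re, e_zero] at this
    linarith

theorem side (h : Ang a b c) :
    ∃ l : ℝ, 0 < l ∧ gs a b c u - gs a b c 1 = l * (I * e (g0 a b c)) := by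
  have hd : I * e (g0 a b c) ≠ 0 := mul_ne_zero I_ne_zero (e_ne _)
  generalize hD : I * e (g0 a b c) = D at hd
  have m0 := left_mem_Icc.2 third_pos.le
  have m1 := right_mem_Icc.2 third_pos.le
  obtain ⟨h1, h2⟩ := arc_deriv h D⁻¹
  have a1 := strictMonoOn_of_deriv_pos (convex_Icc _ _) h1 (fun t ht => by
    obtain ⟨r, hr, h'⟩ := h2 t ht
    rw [h'.deriv, hD, inv_mul_cancel₀ hd, one_re, mul_one]
    exact hr) m0 m1 third_pos
  have a2 := arc_mono h (κ := I * D⁻¹) (by rw [hD, mul_assoc, inv_mul_cancel₀ hd]; simp)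
    m0 m1 third_pos.le
  have a3 := arc_mono h (κ := -I * D⁻¹) (by rw [hD, mul_assoc, inv_mul_cancel₀ hd]; simp)
    m0 m1 third_pos.le
  simp only [e_zero, ← u.eq_1, mul_assoc, neg_mul, neg_re, I_mul_re, neg_neg] at a1 a2 a3
  refine ⟨_, sub_pos.2 a1, ?_⟩
  rw [← mul_inv_eq_iff_eq_mul₀ hd, mul_comm, mul_sub]
  apply Complex.ext
  · rw [sub_re, ofReal_re]
  · rw [sub_im, ofReal_im]
    linarith

theorem circle_cases {z : ℂ} (hz : ‖z‖ = 1) :
    ∃ t ∈ Icc 0 (2 * π / 3), z = e t ∨ z = u * e t ∨ z = u ^ 2 * e t := by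
  have h0 : 0 ≤ (arg z + 2 * π) / (2 * π / 3) :=
    div_nonneg (by linarith [neg_pi_lt_arg z, Real.pi_pos]) third_pos.le
  set j := ⌊(arg z + 2 * π) / (2 * π / 3)⌋₊ with hj
  have h1 := (le_div_iff₀ third_pos).1 (Nat.floor_le h0)
  have h2 := (div_lt_iff₀ third_pos).1 (Nat.lt_floor_add_one ((arg z + 2 * π) / (2 * π / 3)))
  rw [← hj] at h1 h2
  have h3 : z = u ^ j * e (arg z + 2 * π - j * (2 * π / 3)) := by
    rw [u, e_pow, ← e_add, add_sub_cancel, e_add]
    have := norm_mul_exp_arg_mul_I z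
    rw [hz] at this
    simpa [e] using this.symm
  refine ⟨arg z + 2 * π - j * (2 * π / 3), ⟨by linarith, by linarith⟩, ?_⟩
  rw [pow_eq_pow_mod j u_cube] at h3
  have h4 := Nat.mod_lt j three_pos
  generalize j % 3 = k at h3 h4
  interval_cases k
  · exact Or.inl (by rwa [pow_zero, one_mul] at h3)
  · exact Or.inr (Or.inl (by rwa [pow_one] at h3))
  · exact Or.inr (Or.inr h3)

theorem image_le (h : Ang a b c) {κ : ℂ} {M : ℝ} (h0 : (κ * gs a b c 1).re ≤ M)
    (h1 : (κ * gs a b c u).re ≤ M) (h2 : (κ * gs a b c (u ^ 2)).re ≤ M) {w : ℂ} (hw : ‖w‖ ≤ 1) :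
    (κ * gs a b c w).re ≤ M := by
  have hd : DiffContOnCl ℂ (fun w => Complex.exp (κ * gs a b c w)) (ball 0 1) := by
    refine ⟨fun w hw => (((hasDerivAt_gs (mem_Ud (mem_ball_zero_iff.1 hw))).differentiableAt.const_mul
      _).cexp).differentiableWithinAt, ?_⟩
    rw [closure_ball _ one_ne_zero]
    exact (continuousOn_const.mul (continuousOn_gs h)).cexp
  have := Complex.norm_le_of_forall_mem_frontier_norm_le isBounded_ball hd (C := Real.exp M)
    (fun z hz => ?_) (z := w) (by rwa [closure_ball _ one_ne_zero, mem_closedBall_zero_iff])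
  · rwa [Complex.norm_exp, Real.exp_le_exp] at this
  rw [frontier_ball _ one_ne_zero, mem_sphere_zero_iff_norm] at hz
  rw [Complex.norm_exp, Real.exp_le_exp]
  obtain ⟨t, ht, rfl | rfl | rfl⟩ := circle_cases hz
  · exact arc_le h h0 h1 ht
  · rw [gs_rot, ← mul_assoc]
    refine arc_le h.rot ?_ ?_ ht
    · rwa [mul_assoc, ← gs_rot, mul_one]
    · rwa [mul_assoc, ← gs_rot, ← sq]
  · rw [gs_rot2, ← mul_assoc]
    refine arc_le h.rot.rot ?_ ?_ ht
    · rwa [mul_assoc, ← gs_rot2, mul_one]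
    · rwa [mul_assoc, ← gs_rot2, ← pow_succ, u_cube]

theorem gs_zero : gs a b c 0 = 0 := by simp [gs]

theorem image_lt {κ : ℂ} (hκ : κ ≠ 0) {M : ℝ} (h : ∀ w : ℂ, ‖w‖ ≤ 1 → (κ * gs a b c w).re ≤ M) :
    (κ * gs a b c 0).re < M := by
  refine lt_of_le_of_ne (h 0 (by simp)) fun hM => ?_
  have a1 : HasDerivAt (gs a b c) 1 (((0 : ℝ) : ℂ) * κ⁻¹) := by
    simpa [gd] using hasDerivAt_gs (a := a) (b := b) (c := c) (mem_Ud (z := 0) (by simp))
  have a2 := reCLM.hasFDerivAt.comp_hasDerivAt 0 ((deriv_ray a1).const_mul κ)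
  have a3 : IsLocalMax (fun t : ℝ => (κ * gs a b c (t * κ⁻¹)).re) 0 := by
    have : ∀ᶠ t : ℝ in 𝓝 0, ‖(t : ℂ) * κ⁻¹‖ < 1 :=
      ContinuousAt.eventually_lt (by fun_prop) continuousAt_const (by simp)
    filter_upwards [this] with t ht
    rw [ofReal_zero, zero_mul, hM]
    exact h _ ht.le
  have := a3.hasDerivAt_eq_zero a2
  simp [mul_inv_cancel₀ hκ] at this

end Pool.Agent.Lib.MP_7c5c90_an.TR
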