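import Pool.Agent.Lib.MP_7c5c90_an.TR.Lower

/-!
Similarity invariance, and triangles in general position.
-/

set_option autoImplicit false

open MeasureTheory Set Complex Filter Topology Metric EuclideanGeometry
open scoped Real ComplexConjugate

namespace Pool.Agent.Lib.MP_7c5c90_an.TR

open RP

theorem Adm_image {Q : Set ℂ} (hQ : MeasurableSet Q) (p : ℂ) {κ : ℂ} (hκ : κ ≠ 0) :
    Adm Q ⊆ Adm ((fun z => p + κ * z) '' Q) := by
  intro Γ hΓ w hw i1 i2 hm
  have hf : ∀ z ∈ Q, HasDerivAt (fun z => p + κ * z) κ z := fun z _ => by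
    simpa using ((hasDerivAt_id z).const_mul κ).const_add p
  have hinj : InjOn (fun z => p + κ * z) Q := fun a _ b _ h =>
    mul_left_cancel₀ hκ (add_left_cancel h)
  have hk : 0 < ‖κ‖ ^ 2 := pow_pos (norm_pos_iff.2 hκ) 2
  have hi : ∀ φ : ℂ → ℝ, IntegrableOn φ ((fun z => p + κ * z) '' Q) →
      IntegrableOn (fun z => φ (p + κ * z)) Q := fun φ h => by
    have := (integrableOn_image_iff_integrableOn_abs_det_fderiv_smul volume hQ
      (fun z hz => ((hf z hz).hasFDerivAt.restrictScalars ℝ).hasFDerivWithinAt) hinj φ).1 h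
    refine (integrable_const_mul_iff (c := ‖κ‖ ^ 2) hk.ne'.isUnit _).1 (this.congr_fun ?_ hQ)
    intro z _
    simp [ContinuousLinearMap.det, LinearMap.det_restrictScalars,
      Algebra.norm_complex_eq, Complex.normSq_eq_norm_sq]
  rw [integral_image_holo hQ hf hinj, integral_const_mul, mul_eq_zero_iff_left hk.ne'] at hm
  rw [integral_image_holo hQ hf hinj, integral_image_holo hQ hf hinj, integral_const_mul,
    integral_const_mul, mul_left_comm]
  exact mul_le_mul_of_nonneg_left (hΓ (fun z => w (p + κ * z))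
    (hw.comp (by fun_prop) (mapsTo_image _ _)) (hi _ i1) (hi _ i2) hm) hk.le

theorem interior_hull {c d t : ℝ} (ht : 0 < t) (ht1 : 1 = t * (c + d)) :
    interior (convexHull ℝ {0, 1, t * (c + I : ℂ)}) = Tr c d 0 1 := by
  refine subset_antisymm (fun z hz => ?_) (interior_maximal (fun z hz => ?_) isOpen_Tr)
  · have h1 : convexHull ℝ {0, 1, t * (c + I : ℂ)} ⊆ cTr c d 0 1 := by
      refine convexHull_min ?_ fun x hx y hy s r hs hr hsr => ?_
      · rintro _ (rfl | rfl | rfl)
        · simp [cTr]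
        · simp [cTr]
        · simp only [cTr, mem_ofPred_eq, sub_zero, re_ofReal_mul, im_ofReal_mul, add_re, add_im,
            ofReal_re, ofReal_im, I_re, I_im]
          exact ⟨by linarith, by linarith, by linarith⟩
      · simp only [cTr, mem_ofPred_eq, sub_zero, add_im, add_re, smul_im, smul_re, smul_eq_mul] at *
        exact ⟨by linarith [mul_nonneg hs hx.1, mul_nonneg hr hy.1],
          by linarith [mul_le_mul_of_nonneg_left hx.2.1 hs, mul_le_mul_of_nonneg_left hy.2.1 hr],
          by linarith [mul_le_mul_of_nonneg_left hx.2.2 hs, mul_le_mul_of_nonneg_left hy.2.2 hr]⟩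
    obtain ⟨ε, hε, h⟩ := Metric.mem_nhds_iff.1 (mem_interior_iff_mem_nhds.1 (interior_mono h1 hz))
    have k : ∀ v : ℂ, ‖v‖ = 1 → z + (ε / 2 : ℝ) * v ∈ cTr c d 0 1 := fun v hv => h (by
      rw [mem_ball_iff_norm, add_sub_cancel_left, norm_mul, hv, Complex.norm_real,
        Real.norm_of_nonneg (by positivity)]
      linarith)
    have k1 := (k (-I) (by simp)).1
    have k2 := (k (-1) (by simp)).2.1
    have k3 := (k 1 (by simp)).2.2
    simp only [Tr, mem_ofPred_eq, sub_zero, add_re, add_im, re_ofReal_mul, im_ofReal_mul, neg_re,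
      neg_im, one_re, one_im, I_im] at *
    exact ⟨by linarith, by linarith, by linarith⟩
  · obtain ⟨h1, h2, h3⟩ := hz
    rw [sub_zero] at h1 h2 h3
    have e : z.im / t * t = z.im := div_mul_cancel₀ _ ht.ne'
    have e' : z.im / t = z.im * (c + d) := by rw [div_eq_iff ht.ne']; linear_combination z.im * ht1
    refine mem_convexHull_of_exists_fintype ![1 - z.re - d * z.im, z.re - c * z.im, z.im / t]
      ![0, 1, t * (c + I : ℂ)] (fun i => ?_) ?_ (fun i => ?_) ?_
    · fin_cases i
      · exact sub_nonneg.2 h3.le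
      · exact sub_nonneg.2 h2.le
      · exact div_nonneg h1.le ht.le
    · simp only [Fin.sum_univ_three, Matrix.cons_val]
      linarith
    · fin_cases i <;> simp
    · simp only [Fin.sum_univ_three, Matrix.cons_val, real_smul, ← mul_assoc, ← ofReal_mul, e]
      apply Complex.ext <;> simp [mul_comm]

theorem ct_arg {z : ℂ} (hz : z.im ≠ 0) : 0 < |arg z| ∧ ct |arg z| = z.re / |z.im| := by
  have h0 : z ≠ 0 := fun h => hz (by simp [h])
  have h1 := norm_pos_iff.2 h0
  refine ⟨abs_pos.2 fun h => hz (arg_eq_zero_iff.1 h).2, ?_⟩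
  rw [ct, Real.cos_abs, ← Real.abs_sin_eq_sin_abs_of_abs_le_pi (abs_arg_le_pi z), cos_arg h0,
    sin_arg, abs_div, abs_norm, div_div_div_cancel_right₀ h1.ne']

theorem oriented {p q r : ℂ} (h : 0 < ((r - p) / (q - p)).im) (h1 : ∠ q p r ≤ ∠ p q r)
    (h2 : ∠ q p r ≤ ∠ p r q) : IsLeast (Adm (interior (convexHull ℝ {p, q, r})))
      ((∠ q p r + Real.sin (∠ q p r)) / (∠ q p r - Real.sin (∠ q p r))) := by
  have hκ : q - p ≠ 0 := fun k => by simp [k] at h
  have hs := angle_add_angle_add_angle_eq_pi r (sub_ne_zero.1 hκ)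
  rw [angle_comm q r p, angle_comm r p q] at hs
  obtain ⟨κ, rfl⟩ : ∃ κ, q = p + κ * 1 := ⟨q - p, by ring⟩
  rw [add_sub_cancel_left, mul_one] at hκ h
  obtain ⟨τ, rfl⟩ : ∃ τ, r = p + κ * τ := ⟨(r - p) / κ, by field_simp; ring⟩
  rw [add_sub_cancel_left, mul_div_cancel_left₀ _ hκ] at h
  have a1 : ∠ (p + κ * 1) p (p + κ * τ) = |arg τ| := by
    rw [EuclideanGeometry.angle, vsub_eq_sub, vsub_eq_sub, add_sub_cancel_left, add_sub_cancel_left,
      angle_mul_left hκ, angle_one_left fun k => by simp [k] at h]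
  have b0 : (1 - τ).im ≠ 0 := by simpa using h.ne'
  have a2 : ∠ p (p + κ * 1) (p + κ * τ) = |arg (1 - τ)| := by
    rw [EuclideanGeometry.angle, vsub_eq_sub, vsub_eq_sub, show p - (p + κ * 1) = -κ * 1 by ring,
      show p + κ * τ - (p + κ * 1) = -κ * (1 - τ) by ring, angle_mul_left (neg_ne_zero.2 hκ),
      angle_one_left fun k => by simp [k] at b0]
  rw [a1, a2] at h1 hs
  rw [a1] at h2 ⊢
  obtain ⟨c0, c1⟩ := ct_arg h.ne'
  obtain ⟨-, c2⟩ := ct_arg b0
  rw [abs_of_pos h] at c1
  rw [sub_im, one_im, zero_sub, abs_neg, abs_of_pos h, sub_re, one_re] at c2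
  have hn := normalised c0 h1 (by linarith)
  have e1 := interior_hull (c := ct |arg τ|) (d := ct |arg (1 - τ)|) h (by
    rw [c1, c2]
    field_simp
    ring)
  rw [show (τ.im : ℂ) * ((ct |arg τ| : ℝ) + I) = τ by
    rw [mul_add, ← ofReal_mul, c1, mul_div_cancel₀ _ h.ne', re_add_im]] at e1
  rw [← e1] at hn
  have e2 : interior (convexHull ℝ {p, p + κ * 1, p + κ * τ}) =
      (fun z => p + κ * z) '' interior (convexHull ℝ {0, 1, τ}) := by
    have k1 := ((Homeomorph.mulLeft₀ κ hκ).trans (Homeomorph.addLeft p)).image_interior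
      (convexHull ℝ {0, 1, τ})
    have k2 := (AffineMap.const ℝ ℂ p + (LinearMap.mulLeft ℝ κ).toAffineMap).image_convexHull
      {0, 1, τ}
    change (fun z => p + κ * z) '' _ = interior ((fun z => p + κ * z) '' _) at k1
    change (fun z => p + κ * z) '' _ = convexHull ℝ ((fun z => p + κ * z) '' _) at k2
    rw [k1, k2, image_insert_eq, image_insert_eq, image_singleton, mul_zero, add_zero]
  refine ⟨e2 ▸ Adm_image isOpen_interior.measurableSet p hκ hn.1, fun Γ hΓ => hn.2 ?_⟩
  have := Adm_image isOpen_interior.measurableSet (-(κ⁻¹ * p)) (inv_ne_zero hκ) hΓ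
  rwa [e2, image_image, image_congr (g := id) (fun z _ => by simp only [id]; field_simp; ring),
    image_id] at this

theorem at_vertex {p q r : ℂ} (h : ¬Collinear ℝ {p, q, r}) (h1 : ∠ q p r ≤ ∠ p q r)
    (h2 : ∠ q p r ≤ ∠ p r q) : IsLeast (Adm (interior (convexHull ℝ {p, q, r})))
      ((∠ q p r + Real.sin (∠ q p r)) / (∠ q p r - Real.sin (∠ q p r))) := by
  have hq : q - p ≠ 0 := fun k => h (by
    rw [sub_eq_zero.1 k, insert_eq_of_mem (mem_insert _ _)]
    exact collinear_pair ℝ p r)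
  rcases lt_trichotomy 0 ((r - p) / (q - p)).im with k | k | k
  · exact oriented k h1 h2
  · refine absurd ((collinear_iff_of_mem (mem_insert p _)).2 ⟨q - p, ?_⟩) h
    rintro x (rfl | rfl | rfl)
    · exact ⟨0, by simp⟩
    · exact ⟨1, by simp⟩
    · refine ⟨((x - p) / (q - p)).re, ?_⟩
      rw [real_smul, show ((((x - p) / (q - p)).re : ℝ) : ℂ) = (x - p) / (q - p) from
        Complex.ext rfl k, div_mul_cancel₀ _ hq, vadd_eq_add, sub_add_cancel]
  · rw [pair_comm q r, angle_comm q p r]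
    rw [angle_comm q p r] at h1 h2
    refine oriented ?_ h2 h1
    rw [← inv_div, inv_im]
    exact div_pos (neg_pos.2 k) (normSq_pos.2 fun h => by simp [h] at k)

end Pool.Agent.Lib.MP_7c5c90_an.TR
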