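import Pool.Agent.Lib.MP_7c5c90_an.TR.Davis

/-!
The sharp bilinear estimate on a triangle.
-/

set_option autoImplicit false

open MeasureTheory Set Complex Filter Topology Metric
open scoped Real ComplexConjugate

namespace Pool.Agent.Lib.MP_7c5c90_an.TR

open RP

variable {a b c : ℝ}

/-- The cotangent. -/
noncomputable def ct (x : ℝ) : ℝ := Real.cos x / Real.sin x

theorem Ang.sin_pos (h : Ang a b c) : 0 < Real.sin (π * a) :=
  Real.sin_pos_of_pos_of_lt_pi (mul_pos Real.pi_pos h.ha) (mul_lt_of_lt_one_right Real.pi_pos h.lt)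

theorem e_ct {x : ℝ} (hx : 0 < Real.sin x) :
    e x = Real.sin x * (ct x + I) ∧ e (-x) = Real.sin x * (ct x - I) := by
  have h : (Real.sin x : ℂ) * ct x = Real.cos x := by
    rw [← ofReal_mul, ct, mul_div_cancel₀ _ hx.ne']
  rw [e_eq, e_eq, Real.cos_neg, Real.sin_neg, ← h, ofReal_neg]
  exact ⟨by ring, by ring⟩

theorem ct_coef {x : ℝ} (hx : 0 < Real.sin x) :
    Real.sin x * e (-x) * (ct x + I) = 1 ∧ Real.sin x * e x * (ct x - I) = 1 := by
  have h : e x * e (-x) = 1 := by rw [← e_add, add_neg_cancel, e_zero]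
  constructor
  · linear_combination h - e (-x) * (e_ct hx).1
  · linear_combination h - e x * (e_ct hx).2

theorem vertices (h : Ang a b c) : ∃ (C : ℂ) (t : ℝ), C ≠ 0 ∧ 0 < t ∧
    1 = t * (ct (π * a) + ct (π * b)) ∧ C * (gs a b c u - gs a b c 1) = 1 ∧
      C * (gs a b c (u ^ 2) - gs a b c 1) = t * (ct (π * a) + I) := by
  obtain ⟨l, hl, h0⟩ := side h
  obtain ⟨m, hm, h1⟩ := side h.rot
  obtain ⟨n, hn, h2⟩ := side h.rot.rot
  have hd : (l : ℂ) * (I * e (g0 a b c)) ≠ 0 :=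
    mul_ne_zero (ofReal_ne_zero.2 hl.ne') (mul_ne_zero I_ne_zero (e_ne _))
  have hl' : (l : ℂ) ≠ 0 := ofReal_ne_zero.2 hl.ne'
  have he := e_ne (g0 a b c)
  have hc : c = 1 - a - b := by linarith [h.hs]
  have e1 : u * e (g0 b c a) = -(e (g0 a b c) * e (-(π * b))) := by
    rw [neg_eq_neg_one_mul, ← e_pi, u, ← e_add, ← e_add, ← e_add, g0, g0, hc]
    congr 1
    ring
  have e2 : u ^ 2 * e (g0 c a b) = -(e (g0 a b c) * e (π * a)) := by
    rw [neg_eq_neg_one_mul, ← e_pi, u, e_pow, ← e_add, ← e_add, ← e_add, g0, g0, hc]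
    congr 1
    push_cast
    ring
  have f1 : gs a b c (u ^ 2) - gs a b c u = -(m * I * (e (g0 a b c) * e (-(π * b)))) := by
    have k1 := gs_rot (a := a) (b := b) (c := c) u
    have k2 := gs_rot (a := a) (b := b) (c := c) 1
    rw [← sq] at k1
    rw [mul_one] at k2
    linear_combination k1 - k2 + u * h1 + m * I * e1
  have f2 : gs a b c (u ^ 2) - gs a b c 1 = n * I * (e (g0 a b c) * e (π * a)) := by
    have k1 := gs_rot2 (a := a) (b := b) (c := c) u
    have k2 := gs_rot2 (a := a) (b := b) (c := c) 1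
    rw [← pow_succ, u_cube] at k1
    rw [mul_one] at k2
    linear_combination k2 - k1 - u ^ 2 * h2 - n * I * e2
  have f3 : (n : ℂ) * e (π * a) + m * e (-(π * b)) = l :=
    mul_left_cancel₀ (mul_ne_zero I_ne_zero he) (by linear_combination f1 - f2 + h0)
  have g1 := congrArg Complex.re f3
  have g2 := congrArg Complex.im f3
  rw [add_re, re_ofReal_mul, re_ofReal_mul, e_re, e_re, Real.cos_neg, ofReal_re] at g1
  rw [add_im, im_ofReal_mul, im_ofReal_mul, e_im, e_im, Real.sin_neg, ofReal_im] at g2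
  have sa := h.sin_pos
  have sb := h.rot.sin_pos
  refine ⟨_, n / l * Real.sin (π * a), inv_ne_zero hd, by positivity, ?_,
    by rw [h0, inv_mul_cancel₀ hd], ?_⟩
  · simp only [ct]
    field_simp
    linear_combination (-Real.sin (π * b)) * g1 - Real.cos (π * b) * g2
  · rw [f2, (e_ct sa).1]
    push_cast
    field_simp

theorem sin_ratio {x y : ℝ} (h0 : 0 < x) (h1 : x ≤ y) (h2 : y ≤ 1) :
    Real.sin (π * y) ≤ Real.sin (π * x) / x * y := by
  have hy := h0.trans_le h1
  have hp := Real.pi_pos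
  have := strictConcaveOn_sin_Icc.concaveOn.2
    (show π * y ∈ Icc 0 π from ⟨by positivity, mul_le_of_le_one_right hp.le h2⟩)
    (left_mem_Icc.2 hp.le) (show 0 ≤ x / y by positivity)
    (sub_nonneg.2 ((div_le_one hy).2 h1)) (by ring)
  simp only [smul_eq_mul, Real.sin_zero, mul_zero, add_zero] at this
  rw [show x / y * (π * y) = π * x by field_simp, div_mul_eq_mul_div, div_le_iff₀ hy] at this
  rw [div_mul_eq_mul_div, le_div_iff₀ h0]
  linarith

theorem key (h : Ang a b c) (hb : a ≤ b) (hc : a ≤ c) : ∃ z0 ∈ Tr (ct (π * a)) (ct (π * b)) 0 1,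
    ∀ F G : ℂ → ℂ, DifferentiableOn ℂ F (Tr (ct (π * a)) (ct (π * b)) 0 1) →
      DifferentiableOn ℂ G (Tr (ct (π * a)) (ct (π * b)) 0 1) →
      IntegrableOn (fun z => ‖F z‖ ^ 2) (Tr (ct (π * a)) (ct (π * b)) 0 1) →
      IntegrableOn (fun z => ‖G z‖ ^ 2) (Tr (ct (π * a)) (ct (π * b)) 0 1) → F z0 = 0 →
      2 * (π * a) * ‖∫ z in Tr (ct (π * a)) (ct (π * b)) 0 1, F z * G z‖ ≤ Real.sin (π * a) *
        ((∫ z in Tr (ct (π * a)) (ct (π * b)) 0 1, ‖F z‖ ^ 2) +
          ∫ z in Tr (ct (π * a)) (ct (π * b)) 0 1, ‖G z‖ ^ 2) := by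
  obtain ⟨C, t, hC, ht, ht1, v1, v2⟩ := vertices h
  have ha := h.ha
  have sa := h.sin_pos
  have sb := h.rot.sin_pos
  have k0 := (ct_coef sa).1
  have k1 := (ct_coef sb).2
  have n0 : ‖Real.sin (π * a) * e (-(π * a))‖ ≤ Real.sin (π * a) / a * a := by
    rw [norm_mul_e sa.le, div_mul_cancel₀ _ ha.ne']
  have n1 : ‖Real.sin (π * b) * e (π * b)‖ ≤ Real.sin (π * a) / a * b := by
    rw [norm_mul_e sb.le]
    exact sin_ratio ha hb h.rot.lt.le
  have n2 : ‖-(Real.sin (π * a) * e (-(π * a)) + Real.sin (π * b) * e (π * b))‖ ≤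
      Real.sin (π * a) / a * c := by
    have : Real.sin (π * a) * e (-(π * a)) + Real.sin (π * b) * e (π * b) =
        Real.sin (π * c) * e (π * b - π * a) := by
      rw [show π * c = π - (π * a + π * b) by rw [show c = 1 - a - b by linarith [h.hs]]; ring,
        Real.sin_pi_sub]
      generalize π * a = x
      generalize π * b = y
      apply Complex.ext
      · simp only [add_re, re_ofReal_mul, e_re, Real.cos_neg, Real.sin_add, Real.cos_sub]
        linear_combination (-Real.sin x * Real.cos x) * Real.sin_sq_add_cos_sq y -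
          Real.sin y * Real.cos y * Real.sin_sq_add_cos_sq x
      · simp only [add_im, im_ofReal_mul, e_im, Real.sin_neg, Real.sin_add, Real.sin_sub]
        linear_combination Real.sin x ^ 2 * Real.sin_sq_add_cos_sq y -
          Real.sin y ^ 2 * Real.sin_sq_add_cos_sq x
    rw [norm_neg, this, norm_mul_e h.rot.rot.sin_pos.le]
    exact sin_ratio ha hc h.rot.rot.lt.le
  have hk : 0 ≤ Real.sin (π * a) / a := by positivity
  generalize (Real.sin (π * a) : ℂ) * e (-(π * a)) = a0 at *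
  generalize (Real.sin (π * b) : ℂ) * e (π * b) = a1 at *
  generalize ct (π * a) = x at *
  generalize ct (π * b) = y at *
  have hxy : 0 < x + y := pos_of_mul_pos_left' (ht1 ▸ one_pos) ht
  set Φ : ℂ → ℂ := fun w => C * (gs a b c w - gs a b c 1) with hΦ
  have hle : ∀ κ : ℂ, κ ≠ 0 → ∀ M : ℝ, 0 ≤ M → κ.re ≤ M → (κ * (t * (x + I))).re ≤ M →
      (∀ w : ℂ, ‖w‖ ≤ 1 → (κ * Φ w).re ≤ M) ∧ (κ * Φ 0).re < M := fun κ hκ M m0 m1 m2 => by
    have e1 : ∀ w, (κ * Φ w).re = (κ * C * gs a b c w).re - (κ * C * gs a b c 1).re := fun w => by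
      rw [← sub_re]
      congr 1
      simp only [hΦ]
      ring
    have e2 : ∀ w : ℂ, ‖w‖ ≤ 1 → (κ * C * gs a b c w).re ≤ M + (κ * C * gs a b c 1).re :=
      fun w hw => image_le h (by linarith) (by
        have := e1 u
        simp only [hΦ, v1, mul_one] at this
        linarith) (by
        have := e1 (u ^ 2)
        simp only [hΦ, v2] at this
        linarith) hw
    refine ⟨fun w hw => by linarith [e1 w, e2 w hw], ?_⟩
    linarith [e1 0, image_lt (mul_ne_zero hκ hC) e2]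
  obtain ⟨p1, q1⟩ := hle I I_ne_zero 0 le_rfl (by simp) (by simpa using ht.le)
  obtain ⟨p2, q2⟩ := hle (-1 - x * I) (fun h => by simpa using congrArg Complex.re h) 0 le_rfl
    (by simp) (by simp [mul_comm])
  obtain ⟨p3, q3⟩ := hle (1 - y * I) (fun h => by simpa using congrArg Complex.re h) 1 zero_le_one
    (by simp) (by simp; linarith)
  simp only [mul_re, I_re, I_im, sub_re, sub_im, neg_re, neg_im, one_re, one_im, mul_im, ofReal_re,
    ofReal_im] at p1 q1 p2 q2 p3 q3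
  have hz : Φ 0 ∈ Tr x y 0 1 := by
    simp only [Tr, mem_ofPred_eq, sub_zero]
    exact ⟨by linarith, by linarith, by linarith⟩
  refine ⟨Φ 0, hz, fun F G hF hG iF iG hF0 => ?_⟩
  have hFG := hF.mul hG
  obtain ⟨G1, hG1⟩ := exists_primitive_convex isOpen_Tr convex_Tr hFG
  have h1 : ∀ z ∈ Tr x y 0 1, HasDerivAt (fun z => G1 z - G1 (Φ 0)) (F z * G z) z :=
    fun z hz => (hG1 z hz).sub_const _
  obtain ⟨G2, hG2⟩ := exists_primitive_convex isOpen_Tr convex_Tr (f := fun z => G1 z - G1 (Φ 0))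
    fun z hz => (h1 z hz).differentiableAt.differentiableWithinAt
  have h2 : ∀ z ∈ Tr x y 0 1, HasDerivAt (fun z => G2 z - G2 (Φ 0)) (G1 z - G1 (Φ 0)) z :=
    fun z hz => (hG2 z hz).sub_const _
  have hi : IntegrableOn (fun z => F z * G z) (Tr x y 0 1) :=
    Integrable.mono' (iF.add iG) (hFG.continuousOn.aestronglyMeasurable isOpen_Tr.measurableSet)
      (Eventually.of_forall fun z => by
        rw [norm_mul, Pi.add_apply]
        nlinarith [norm_nonneg (F z), norm_nonneg (G z), sq_nonneg (‖F z‖ - ‖G z‖)])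
  rw [← le_div_iff₀' (by positivity)]
  refine exhaust hz hi fun ρ r0 r1 => ?_
  have hs : cTr x y ((1 - ρ : ℝ) * Φ 0) ρ ⊆ Tr x y 0 1 := by simpa using shrink hz r1
  have e0 : ((1 - ρ : ℝ) : ℂ) * Φ 0 + ρ * Φ 0 = Φ 0 := by push_cast; ring
  have step : ∀ (α : ℝ) (q v : ℂ) (s : ℝ), 0 < s → ‖q‖ ≤ Real.sin (π * a) / a * α →
      3 * s * (α * ‖gs a b c v - gs a b c (v * (s ^ 2 : ℝ))‖) ≤
        (1 - s ^ 6) * ‖gd a b c (v * (s ^ 2 : ℝ))‖ →
      3 * s * (‖q‖ * ‖(1 - ρ : ℝ) * Φ 0 + ρ * Φ v - ((1 - ρ : ℝ) * Φ 0 + ρ * Φ (v * (s ^ 2 : ℝ)))‖) ≤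
        Real.sin (π * a) / a * (1 - s ^ 6) * ‖ρ * (C * gd a b c (v * (s ^ 2 : ℝ)))‖ :=
    fun α q v s s0 b1 b2 => by
      rw [show (1 - ρ : ℝ) * Φ 0 + ρ * Φ v - ((1 - ρ : ℝ) * Φ 0 + ρ * Φ (v * (s ^ 2 : ℝ))) =
        ρ * C * (gs a b c v - gs a b c (v * (s ^ 2 : ℝ))) by simp only [hΦ]; ring,
        ← mul_assoc (ρ : ℂ), norm_mul (ρ * C), norm_mul (ρ * C)]
      linarith [mul_le_mul_of_nonneg_left b2 (mul_nonneg hk (norm_nonneg (ρ * C))),
        mul_le_mul_of_nonneg_right b1 (show 0 ≤ 3 * s * (‖ρ * C‖ *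
          ‖gs a b c v - gs a b c (v * (s ^ 2 : ℝ))‖) by positivity)]
  have hcore := core_abs (U := Tr x y 0 1) (Φ := fun w => (1 - ρ : ℝ) * Φ 0 + ρ * Φ w)
    (Φ' := fun w => ρ * (C * gd a b c w)) hF hG iF iG h1 h2
    (fun w hw => ((((hasDerivAt_gs (mem_Ud (mem_ball_zero_iff.1 hw))).sub_const _).const_mul
      C).const_mul _).const_add _)
    (fun w hw => (((differentiableAt_gd (mem_Ud (mem_ball_zero_iff.1 hw))).const_mul C).const_mul
      _).differentiableWithinAt)
    (continuousOn_const.add (continuousOn_const.mul (continuousOn_const.mul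
      ((continuousOn_gs h).sub continuousOn_const))))
    (fun w hw => hs (by
      have hw := mem_closedBall_zero_iff.1 hw
      simp only [cTr, mem_ofPred_eq, add_sub_cancel_left, re_ofReal_mul, im_ofReal_mul]
      exact ⟨by nlinarith [p1 w hw], by nlinarith [p2 w hw], by nlinarith [p3 w hw]⟩))
    (fun v hv w hw hvw => injOn_gs h hv hw (sub_left_injective (mul_left_cancel₀ hC
      (mul_left_cancel₀ (ofReal_ne_zero.2 r0.ne') (add_left_cancel hvw)))))
    (by simp only [e0, hF0]) (by simp only [e0, sub_self]) (by simp only [e0, sub_self]) hk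
    (a0 := a0) (a1 := a1) (a2 := -(a0 + a1)) (by
      simp only [List.mem_cons, List.not_mem_nil, or_false]
      rintro _ (rfl | rfl | rfl) s s0 s1
      · exact step a _ _ s s0 n0 (by simpa only [one_mul] using weight h s0 s1)
      · refine step b _ u s s0 n1 ?_
        rw [gd_rot, gs_rot, show gs a b c u = u * gs b c a 1 by rw [← gs_rot, mul_one], ← mul_sub,
          norm_mul, norm_u, one_mul]
        exact weight h.rot s0 s1
      · refine step c _ (u ^ 2) s s0 n2 ?_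
        rw [gd_rot2, gs_rot2, show gs a b c (u ^ 2) = u ^ 2 * gs c a b 1 by rw [← gs_rot2, mul_one],
          ← mul_sub, norm_mul, norm_u2, one_mul]
        exact weight h.rot.rot s0 s1)
  rw [davis (f := fun z => F z * G z) hxy (mul_pos r0 ht) (by rw [mul_assoc, ← ht1, mul_one]) (hFG.continuousOn.mono hs)
    (fun z hz => h1 z (hs hz)) (fun z hz => h2 z (hs hz)) k0 k1, le_div_iff₀' (by positivity)]
  simp only [hΦ, sub_self, mul_zero, add_zero, v1, v2, mul_one] at hcore
  simp only [hΦ, ofReal_mul, mul_assoc (ρ : ℂ)]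
  rw [div_mul_eq_mul_div, le_div_iff₀ ha] at hcore
  linarith

end Pool.Agent.Lib.MP_7c5c90_an.TR
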